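import Mathlib
import Pool.Agent.W812.RB.Fin
import Pool.Agent.W346.RB.Int
import Pool.Agent.W346.RB.Primes
import Pool.Agent.W356.RB.Prod
import Pool.Agent.W310.RB.Main

set_option autoImplicit false

/-!
# Lower bound for the Roth numbers (from the starting library)
-/

namespace Pool.Agent.Q102.VC

theorem roth_lower : ∃ N₀ : ℕ, ∀ N : ℕ, N₀ ≤ N →
    (N : ℝ) * Real.exp (-(2.1243 * Real.sqrt (Real.log N))) ≤ rothNumberNat N := by
  obtain ⟨N₀, h⟩ := Pool.Agent.W310.RB.main Pool.Agent.W356.RB.prod Pool.Agent.W346.RB.integer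
    Pool.Agent.W346.RB.primes 0.5689 2.1243 (by norm_num) (by norm_num)
    Pool.Agent.W812.RB.density Pool.Agent.W812.RB.const_lt
  refine ⟨N₀, fun N hN => ?_⟩
  refine le_trans (le_of_eq ?_) (h N hN)
  congr 2
  ring

end Pool.Agent.Q102.VC
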