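import Pool.Agent.Q102.VC.Pack

set_option autoImplicit false

/-!
# Haussler's packing lemma
-/

namespace Pool.Agent.Q102.VC

open Finset

section Edges

variable {α : Type*} [DecidableEq α]

/-- the edges in direction `x` of the unit distance graph -/
def Ed (𝒜 : Finset (Finset α)) (x : α) : Finset (Finset α) :=
  𝒜.filter fun B => x ∉ B ∧ insert x B ∈ 𝒜

/-- The unit distance graph of a family of VC dimension at most `D` has at most `D |𝒜|` edges. -/
theorem edge_density (Y : Finset α) : ∀ (𝒜 : Finset (Finset α)) (D : ℕ), (∀ B ∈ 𝒜, B ⊆ Y) →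
    (∀ Z : Finset α, 𝒜.Shatters Z → Z.card ≤ D) → ∑ x ∈ Y, (Ed 𝒜 x).card ≤ D * 𝒜.card := by
  induction Y using Finset.induction_on with
  | empty => intro 𝒜 D _ _; simp
  | insert a Y ha ih =>
    intro 𝒜 D hY hD
    set 𝒜0 := 𝒜.nonMemberSubfamily a with h0
    set 𝒜1 := 𝒜.memberSubfamily a with h1
    have hcard : 𝒜1.card + 𝒜0.card = 𝒜.card := card_memberSubfamily_add_card_nonMemberSubfamily a 𝒜
    have hUI : (𝒜0 ∪ 𝒜1).card + (𝒜0 ∩ 𝒜1).card = 𝒜.card := by
      rw [card_union_add_card_inter]; omega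
    have hmem0 : ∀ B, B ∈ 𝒜0 ↔ B ∈ 𝒜 ∧ a ∉ B := fun B => mem_nonMemberSubfamily
    have hmem1 : ∀ B, B ∈ 𝒜1 ↔ insert a B ∈ 𝒜 ∧ a ∉ B := fun B => mem_memberSubfamily
    have hYU : ∀ B ∈ 𝒜0 ∪ 𝒜1, B ⊆ Y := by
      intro B hB x hx
      rw [mem_union, hmem0, hmem1] at hB
      rcases hB with ⟨hB, haB⟩ | ⟨hB, haB⟩
      · rcases mem_insert.1 (hY B hB hx) with h | h
        · exact absurd (h ▸ hx) haB
        · exact h
      · rcases mem_insert.1 (hY _ hB (mem_insert_of_mem hx)) with h | h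
        · exact absurd (h ▸ hx) haB
        · exact h
    have hYI : ∀ B ∈ 𝒜0 ∩ 𝒜1, B ⊆ Y := fun B hB =>
      hYU B (mem_union_left _ (mem_inter.1 hB).1)
    -- shattered sets
    have hDU : ∀ Z, (𝒜0 ∪ 𝒜1).Shatters Z → Z.card ≤ D := by
      intro Z hZ
      apply hD
      have haZ : a ∉ Z := by
        intro haZ
        obtain ⟨u, hu, hZu⟩ := hZ (Subset.refl Z)
        have h2 : a ∈ u := (mem_inter.1 (hZu.symm ▸ haZ : a ∈ Z ∩ u)).2
        rw [mem_union, hmem0, hmem1] at hu
        rcases hu with h | h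
        · exact h.2 h2
        · exact h.2 h2
      intro t ht
      obtain ⟨u, hu, hZu⟩ := hZ ht
      rw [mem_union, hmem0, hmem1] at hu
      rcases hu with h | h
      · exact ⟨u, h.1, hZu⟩
      · refine ⟨insert a u, h.1, ?_⟩
        rw [inter_insert_of_notMem haZ, hZu]
    have hDI : ∀ Z, (𝒜0 ∩ 𝒜1).Shatters Z → Z.card + 1 ≤ D := by
      intro Z hZ
      have haZ : a ∉ Z := by
        intro haZ
        obtain ⟨u, hu, hZu⟩ := hZ (Subset.refl Z)
        have h2 : a ∈ u := (mem_inter.1 (hZu.symm ▸ haZ : a ∈ Z ∩ u)).2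
        rw [mem_inter, hmem0] at hu
        exact hu.1.2 h2
      have h3 : 𝒜.Shatters (insert a Z) := by
        intro t ht
        obtain ⟨u, hu, hZu⟩ := hZ (show t.erase a ⊆ Z by
          intro x hx
          rw [mem_erase] at hx
          rcases mem_insert.1 (ht hx.2) with h | h
          · exact absurd h hx.1
          · exact h)
        rw [mem_inter, hmem0, hmem1] at hu
        obtain ⟨⟨hu0, hau⟩, hu1, -⟩ := hu
        by_cases hat : a ∈ t
        · refine ⟨insert a u, hu1, ?_⟩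
          rw [← insert_inter_distrib, hZu, insert_erase hat]
        · refine ⟨u, hu0, ?_⟩
          rw [insert_inter_of_notMem hau, hZu, erase_eq_of_notMem hat]
      have := hD _ h3
      rwa [card_insert_of_notMem haZ] at this
    -- edges
    have ha' : (Ed 𝒜 a).card = (𝒜0 ∩ 𝒜1).card := by
      congr 1
      ext B
      rw [Ed, mem_filter, mem_inter, hmem0, hmem1]
      tauto
    have hx' : ∀ x ∈ Y, (Ed 𝒜 x).card ≤ (Ed (𝒜0 ∪ 𝒜1) x).card + (Ed (𝒜0 ∩ 𝒜1) x).card := by
      intro x hx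
      have hxa : x ≠ a := fun h => ha (h ▸ hx)
      have e1 : (Ed 𝒜 x).card = (Ed 𝒜0 x).card + (Ed 𝒜1 x).card := by
        rw [← card_filter_add_card_filter_not (s := Ed 𝒜 x) (fun B => a ∉ B)]
        congr 1
        · congr 1
          ext B
          simp only [Ed, mem_filter, hmem0, mem_insert]
          tauto
        · symm
          refine card_bij (fun B _ => insert a B) ?_ ?_ ?_
          · intro B hB
            simp only [Ed, mem_filter, hmem1, mem_insert, not_or] at hB ⊢
            refine ⟨⟨hB.1.1, ⟨hxa, hB.2.1⟩, ?_⟩, by simp⟩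
            rw [insert_comm]
            exact hB.2.2.1
          · intro B hB C hC hBC
            simp only [Ed, mem_filter, hmem1] at hB hC
            have := congrArg (fun s => s.erase a) hBC
            simpa [erase_insert hB.1.2, erase_insert hC.1.2] using this
          · intro B hB
            simp only [Ed, mem_filter, not_not] at hB
            refine ⟨B.erase a, ?_, insert_erase hB.2⟩
            simp only [Ed, mem_filter, hmem1, mem_insert, not_or, mem_erase, not_and]
            refine ⟨⟨?_, fun h => absurd rfl h⟩, fun _ => hB.1.2.1, ?_, fun h => hxa h.symm,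
              fun h => absurd rfl h⟩
            · rw [insert_erase hB.2]; exact hB.1.1
            · rw [insert_comm, insert_erase hB.2]; exact hB.1.2.2
      rw [e1, ← card_union_add_card_inter]
      apply add_le_add
      · apply card_le_card
        intro B hB
        simp only [Ed, mem_union, mem_filter] at hB ⊢
        rcases hB with h | h
        · exact ⟨Or.inl h.1, h.2.1, Or.inl h.2.2⟩
        · exact ⟨Or.inr h.1, h.2.1, Or.inr h.2.2⟩
      · apply card_le_card
        intro B hB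
        simp only [Ed, mem_inter, mem_filter] at hB ⊢
        exact ⟨⟨hB.1.1, hB.2.1⟩, hB.1.2.1, hB.1.2.2, hB.2.2.2⟩
    rw [sum_insert ha, ha']
    have hsum := sum_le_sum hx'
    rw [sum_add_distrib] at hsum
    have hU := ih (𝒜0 ∪ 𝒜1) D hYU hDU
    have hI : (𝒜0 ∩ 𝒜1).card + ∑ x ∈ Y, (Ed (𝒜0 ∩ 𝒜1) x).card ≤ D * (𝒜0 ∩ 𝒜1).card := by
      rcases (𝒜0 ∩ 𝒜1).eq_empty_or_nonempty with h | h
      · rw [h]; simp [Ed]
      · have hD1 : 1 ≤ D := by
          have := hDI ∅ (by
            intro t ht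
            obtain ⟨u, hu⟩ := h
            exact ⟨u, hu, by rw [subset_empty.1 ht, empty_inter]⟩)
          simpa using this
        have h5 := ih (𝒜0 ∩ 𝒜1) (D - 1) hYI (fun Z hZ => by have := hDI Z hZ; omega)
        obtain ⟨E, rfl⟩ : ∃ E, D = E + 1 := ⟨D - 1, by omega⟩
        rw [Nat.add_sub_cancel] at h5
        rw [add_mul, one_mul]
        omega
    rw [← hUI, mul_add]
    omega

/-- the weighted version -/
theorem edge_weight (Y : Finset α) (𝒜 : Finset (Finset α)) (D : ℕ) (hY : ∀ B ∈ 𝒜, B ⊆ Y)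
    (hD : ∀ Z : Finset α, 𝒜.Shatters Z → Z.card ≤ D) (w : Finset α → ℕ) :
    ∑ x ∈ Y, ∑ B ∈ Ed 𝒜 x, min (w B) (w (insert x B)) ≤ D * ∑ B ∈ 𝒜, w B := by
  obtain ⟨T, hT⟩ : ∃ T, ∀ B ∈ 𝒜, w B ≤ T := ⟨𝒜.sup w, fun B hB => le_sup hB⟩
  have key : ∀ v ≤ T, v = ∑ t ∈ range T, if t < v then 1 else 0 := by
    intro v hv
    rw [← card_filter]
    have : (range T).filter (fun t => t < v) = range v := by
      ext t
      rw [mem_filter, mem_range, mem_range]
      omega
    rw [this, card_range]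
  have hL : ∑ x ∈ Y, ∑ B ∈ Ed 𝒜 x, min (w B) (w (insert x B)) =
      ∑ t ∈ range T, ∑ x ∈ Y, (Ed (𝒜.filter fun B => t < w B) x).card := by
    rw [sum_comm (s := range T)]
    apply sum_congr rfl
    intro x _
    have : ∀ B ∈ Ed 𝒜 x, min (w B) (w (insert x B)) =
        ∑ t ∈ range T, if t < min (w B) (w (insert x B)) then 1 else 0 := by
      intro B hB
      apply key
      exact (min_le_left _ _).trans (hT B (mem_filter.1 hB).1)
    rw [sum_congr rfl this, sum_comm]
    apply sum_congr rfl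
    intro t _
    rw [← card_filter]
    congr 1
    ext B
    simp only [Ed, mem_filter, lt_min_iff]
    tauto
  have hR : ∑ B ∈ 𝒜, w B = ∑ t ∈ range T, (𝒜.filter fun B => t < w B).card := by
    rw [sum_congr rfl fun B hB => key (w B) (hT B hB), sum_comm]
    apply sum_congr rfl
    intro t _
    rw [card_filter]
  rw [hL, hR, mul_sum]
  apply sum_le_sum
  intro t _
  apply edge_density Y _ D
  · intro B hB
    exact hY B (mem_filter.1 hB).1
  · intro Z hZ
    apply hD
    exact hZ.mono_left (filter_subset _ _)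

end Edges

section Packing

variable {Ω ι : Type*} [DecidableEq Ω]

/-- the trace of `S i` on `Y` -/
def tr (S : ι → Finset Ω) (Y : Finset Ω) (i : ι) : Finset Ω := Y.filter fun x => x ∈ S i

theorem mem_tr (S : ι → Finset Ω) (Y : Finset Ω) (i : ι) (x : Ω) :
    x ∈ tr S Y i ↔ x ∈ Y ∧ x ∈ S i := mem_filter

/-- number of traces on `Y` -/
theorem card_traces (I : Finset ι) (S : ι → Finset Ω) (D : ℕ)
    (hD : ∀ Z : Finset Ω, (∀ B ⊆ Z, ∃ i ∈ I, tr S Z i = B) → Z.card ≤ D) (Y : Finset Ω) :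
    (I.image (tr S Y)).card ≤ ∑ i ∈ range (D + 1), Y.card.choose i := by
  have h1 := card_le_card_shatterer (I.image (tr S Y))
  refine h1.trans ?_
  have h2 : (I.image (tr S Y)).shatterer ⊆ (range (D + 1)).biUnion fun i => powersetCard i Y := by
    intro Z hZ
    rw [mem_shatterer] at hZ
    have hZY : Z ⊆ Y := by
      obtain ⟨u, hu, hZu⟩ := hZ (Subset.refl Z)
      obtain ⟨i, -, rfl⟩ := mem_image.1 hu
      intro x hx
      rw [← hZu] at hx
      exact (mem_filter.1 (mem_inter.1 hx).2).1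
    rw [mem_biUnion]
    refine ⟨Z.card, ?_, mem_powersetCard.2 ⟨hZY, rfl⟩⟩
    rw [mem_range, Nat.lt_succ_iff]
    apply hD Z
    intro B hB
    obtain ⟨u, hu, hZu⟩ := hZ hB
    obtain ⟨i, hi, rfl⟩ := mem_image.1 hu
    refine ⟨i, hi, ?_⟩
    rw [← hZu]
    ext x
    rw [mem_inter, mem_tr, mem_tr]
    exact ⟨fun h => ⟨h.1, hZY h.1, h.2⟩, fun h => ⟨h.1, h.2.2⟩⟩
  refine (card_le_card h2).trans (card_biUnion_le.trans (le_of_eq ?_))
  exact sum_congr rfl fun i _ => card_powersetCard i Y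

theorem shatters_traces (I : Finset ι) (S : ι → Finset Ω) (D : ℕ)
    (hD : ∀ Z : Finset Ω, (∀ B ⊆ Z, ∃ i ∈ I, tr S Z i = B) → Z.card ≤ D) (Y Z : Finset Ω)
    (hZ : (I.image (tr S Y)).Shatters Z) : Z.card ≤ D := by
  have hZY : Z ⊆ Y := by
    obtain ⟨u, hu, hZu⟩ := hZ (Subset.refl Z)
    obtain ⟨i, -, rfl⟩ := mem_image.1 hu
    intro x hx
    rw [← hZu] at hx
    exact (mem_filter.1 (mem_inter.1 hx).2).1
  apply hD Z
  intro B hB
  obtain ⟨u, hu, hZu⟩ := hZ hB
  obtain ⟨i, hi, rfl⟩ := mem_image.1 hu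
  refine ⟨i, hi, ?_⟩
  rw [← hZu]
  ext x
  rw [mem_inter, mem_tr, mem_tr]
  exact ⟨fun h => ⟨h.1, hZY h.1, h.2⟩, fun h => ⟨h.1, h.2.2⟩⟩

/-- the members of `I` with trace `B` on `Y` and `x ∈ S i` -/
def cl (I : Finset ι) (S : ι → Finset Ω) (Y B : Finset Ω) : Finset ι := I.filter fun i => tr S Y i = B

/-- total weight of the edges in direction `x` -/
def fw (I : Finset ι) (S : ι → Finset Ω) (Y : Finset Ω) (x : Ω) : ℕ :=
  ∑ B ∈ I.image (tr S Y), min ((cl I S Y B).filter fun i => x ∉ S i).card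
    ((cl I S Y B).filter fun i => x ∈ S i).card

theorem fw_eq_zero (I : Finset ι) (S : ι → Finset Ω) (Y : Finset Ω) (x : Ω) (hx : x ∈ Y) :
    fw I S Y x = 0 := by
  apply sum_eq_zero
  intro B _
  by_cases h : x ∈ B
  · have : (cl I S Y B).filter (fun i => x ∉ S i) = ∅ := by
      apply filter_false_of_mem
      intro i hi hxi
      have h2 := (mem_filter.1 hi).2
      rw [← h2, mem_tr] at h
      exact hxi h.2
    rw [this, card_empty, Nat.zero_min]
  · have : (cl I S Y B).filter (fun i => x ∈ S i) = ∅ := by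
      apply filter_false_of_mem
      intro i hi hxi
      have h2 := (mem_filter.1 hi).2
      apply h
      rw [← h2, mem_tr]
      exact ⟨hx, hxi⟩
    rw [this, card_empty, Nat.min_zero]

theorem fw_sum (I : Finset ι) (S : ι → Finset Ω) (D : ℕ)
    (hD : ∀ Z : Finset Ω, (∀ B ⊆ Z, ∃ i ∈ I, tr S Z i = B) → Z.card ≤ D) (Y : Finset Ω) :
    ∑ x ∈ Y, fw I S (Y.erase x) x ≤ D * I.card := by
  classical
  set 𝒜 := I.image (tr S Y) with h𝒜
  have h := edge_weight Y 𝒜 D (by
    intro B hB
    obtain ⟨i, -, rfl⟩ := mem_image.1 hB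
    exact filter_subset _ _) (fun Z hZ => shatters_traces I S D hD Y Z hZ)
    (fun B => (cl I S Y B).card)
  have hw : ∑ B ∈ 𝒜, (cl I S Y B).card = I.card := by
    rw [card_eq_sum_card_fiberwise (f := tr S Y) (s := I) (t := 𝒜)
      (fun i hi => mem_image_of_mem _ hi)]
    rfl
  rw [hw] at h
  refine le_trans (sum_le_sum fun x hx => ?_) h
  -- direction x
  have e1 : ∀ B : Finset Ω, x ∉ B → (cl I S (Y.erase x) B).filter (fun i => x ∉ S i) =
      cl I S Y B := by
    intro B hB
    ext i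
    simp only [cl, mem_filter]
    constructor
    · rintro ⟨⟨hi, h1⟩, h2⟩
      refine ⟨hi, ?_⟩
      rw [← h1]
      ext y
      rw [mem_tr, mem_tr, mem_erase]
      constructor
      · rintro ⟨h3, h4⟩
        exact ⟨⟨fun h => h2 (h ▸ h4), h3⟩, h4⟩
      · rintro ⟨⟨_, h3⟩, h4⟩
        exact ⟨h3, h4⟩
    · rintro ⟨hi, h1⟩
      have h2 : x ∉ S i := by
        intro h2
        apply hB
        rw [← h1, mem_tr]
        exact ⟨hx, h2⟩
      refine ⟨⟨hi, ?_⟩, h2⟩
      rw [← h1]
      ext y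
      rw [mem_tr, mem_tr, mem_erase]
      constructor
      · rintro ⟨⟨_, h3⟩, h4⟩
        exact ⟨h3, h4⟩
      · rintro ⟨h3, h4⟩
        exact ⟨⟨fun h => h2 (h ▸ h4), h3⟩, h4⟩
  have e2 : ∀ B : Finset Ω, x ∉ B → (cl I S (Y.erase x) B).filter (fun i => x ∈ S i) =
      cl I S Y (insert x B) := by
    intro B hB
    ext i
    simp only [cl, mem_filter]
    constructor
    · rintro ⟨⟨hi, h1⟩, h2⟩
      refine ⟨hi, ?_⟩
      rw [← h1]
      ext y
      rw [mem_tr, mem_insert, mem_tr, mem_erase]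
      constructor
      · rintro ⟨h3, h4⟩
        by_cases hyx : y = x
        · exact Or.inl hyx
        · exact Or.inr ⟨⟨hyx, h3⟩, h4⟩
      · rintro (h3 | ⟨⟨_, h3⟩, h4⟩)
        · rw [h3]; exact ⟨hx, h2⟩
        · exact ⟨h3, h4⟩
    · rintro ⟨hi, h1⟩
      have h2 : x ∈ S i := by
        have : x ∈ tr S Y i := by rw [h1]; exact mem_insert_self _ _
        exact ((mem_tr _ _ _ _).1 this).2
      refine ⟨⟨hi, ?_⟩, h2⟩
      ext y
      rw [mem_tr, mem_erase]
      constructor
      · rintro ⟨⟨h3, h4⟩, h5⟩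
        have : y ∈ tr S Y i := (mem_tr _ _ _ _).2 ⟨h4, h5⟩
        rw [h1, mem_insert] at this
        exact this.resolve_left h3
      · intro h3
        have : y ∈ tr S Y i := by rw [h1]; exact mem_insert_of_mem h3
        rw [mem_tr] at this
        exact ⟨⟨fun h => hB (h ▸ h3), this.1⟩, this.2⟩
  have hnot : ∀ B ∈ I.image (tr S (Y.erase x)), x ∉ B := by
    intro B hB
    obtain ⟨i, -, rfl⟩ := mem_image.1 hB
    rw [mem_tr, mem_erase]
    exact fun h => h.1.1 rfl
  rw [fw, sum_congr rfl fun B hB => by rw [e1 B (hnot B hB), e2 B (hnot B hB)]]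
  have hpos : ∀ B, B ∉ 𝒜 → (cl I S Y B).card = 0 := by
    intro B hB
    rw [card_eq_zero]
    apply filter_false_of_mem
    intro i hi hi'
    exact hB (mem_image.2 ⟨i, hi, hi'⟩)
  rw [← sum_filter_add_sum_filter_not (I.image (tr S (Y.erase x))) (fun B => B ∈ Ed 𝒜 x)]
  have hz : ∑ B ∈ (I.image (tr S (Y.erase x))).filter (fun B => ¬ B ∈ Ed 𝒜 x),
      min (cl I S Y B).card (cl I S Y (insert x B)).card = 0 := by
    apply sum_eq_zero
    intro B hB
    rw [mem_filter] at hB
    by_cases h1 : B ∈ 𝒜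
    · by_cases h2 : insert x B ∈ 𝒜
      · exact absurd (mem_filter.2 ⟨h1, hnot B hB.1, h2⟩) hB.2
      · rw [hpos _ h2, Nat.min_zero]
    · rw [hpos _ h1, Nat.zero_min]
  rw [hz, add_zero]
  exact sum_le_sum_of_subset (fun B hB => (mem_filter.1 hB).2)

/-- lower bound in one class -/
theorem class_lower (C : Finset ι) (S : ι → Finset Ω) (W : Finset Ω) (s : ℕ)
    (hS : ∀ i ∈ C, ∀ j ∈ C, i ≠ j → s ≤ (W.filter fun x => ¬ (x ∈ S i ↔ x ∈ S j)).card) :
    C.card * s ≤ 2 * ∑ x ∈ W, min (C.filter fun i => x ∉ S i).card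
      (C.filter fun i => x ∈ S i).card + s := by
  classical
  rcases C.eq_empty_or_nonempty with h | h
  · rw [h]; simp
  have hc : 0 < C.card := card_pos.2 h
  have hmin : ∀ x, (C.filter fun i => x ∉ S i).card * (C.filter fun i => x ∈ S i).card ≤
      C.card * min (C.filter fun i => x ∉ S i).card (C.filter fun i => x ∈ S i).card := by
    intro x
    have h1 : (C.filter fun i => x ∉ S i).card ≤ C.card := card_filter_le _ _
    have h2 : (C.filter fun i => x ∈ S i).card ≤ C.card := card_filter_le _ _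
    rcases le_total (C.filter fun i => x ∉ S i).card (C.filter fun i => x ∈ S i).card with h3 | h3
    · rw [min_eq_left h3, mul_comm]
      exact Nat.mul_le_mul_right _ h2
    · rw [min_eq_right h3]
      exact Nat.mul_le_mul_right _ h1
  -- double counting
  have hdc : ∑ x ∈ W, 2 * ((C.filter fun i => x ∉ S i).card * (C.filter fun i => x ∈ S i).card) =
      ∑ q ∈ C ×ˢ C, (W.filter fun x => ¬ (x ∈ S q.1 ↔ x ∈ S q.2)).card := by
    rw [sum_congr rfl fun q (_ : q ∈ C ×ˢ C) => card_filter (fun x => ¬ (x ∈ S q.1 ↔ x ∈ S q.2)) W,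
      sum_comm]
    apply sum_congr rfl
    intro x _
    rw [← card_filter]
    have h1 : (C ×ˢ C).filter (fun q => ¬ (x ∈ S q.1 ↔ x ∈ S q.2)) =
        (C.filter fun i => x ∉ S i) ×ˢ (C.filter fun i => x ∈ S i) ∪
        (C.filter fun i => x ∈ S i) ×ˢ (C.filter fun i => x ∉ S i) := by
      ext q
      simp only [mem_filter, mem_product, mem_union]
      tauto
    rw [h1, card_union_of_disjoint, card_product, card_product]
    · ring
    · rw [disjoint_left]
      intro q h2 h3
      simp only [mem_filter, mem_product] at h2 h3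
      exact h2.1.2 h3.1.2
  have hlow : C.card * C.card * s ≤ ∑ q ∈ C ×ˢ C,
      (W.filter fun x => ¬ (x ∈ S q.1 ↔ x ∈ S q.2)).card + C.card * s := by
    have h1 : ∀ q ∈ C ×ˢ C, s ≤ (W.filter fun x => ¬ (x ∈ S q.1 ↔ x ∈ S q.2)).card +
        (if q.1 = q.2 then s else 0) := by
      intro q hq
      rw [mem_product] at hq
      by_cases h2 : q.1 = q.2
      · rw [if_pos h2]; omega
      · rw [if_neg h2, add_zero]; exact hS _ hq.1 _ hq.2 h2
    have h2 := sum_le_sum h1
    rw [sum_const, smul_eq_mul, card_product, sum_add_distrib] at h2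
    refine h2.trans (Nat.add_le_add_left ?_ _)
    rw [sum_product]
    apply le_of_eq
    calc ∑ x ∈ C, ∑ y ∈ C, (if x = y then s else 0) = ∑ x ∈ C, s := by
          apply sum_congr rfl
          intro x hx
          rw [sum_ite_eq, if_pos hx]
      _ = C.card * s := by rw [sum_const, smul_eq_mul]
  have h3 : C.card * (C.card * s) ≤ C.card * (2 * ∑ x ∈ W, min (C.filter fun i => x ∉ S i).card
      (C.filter fun i => x ∈ S i).card + s) := by
    rw [← hdc] at hlow
    calc C.card * (C.card * s) = C.card * C.card * s := by ring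
      _ ≤ _ := hlow
      _ ≤ ∑ x ∈ W, 2 * (C.card * min (C.filter fun i => x ∉ S i).card
          (C.filter fun i => x ∈ S i).card) + C.card * s := by
        apply Nat.add_le_add_right
        exact sum_le_sum fun x _ => Nat.mul_le_mul_left _ (hmin x)
      _ = _ := by rw [← mul_sum, ← mul_sum]; ring
  exact Nat.le_of_mul_le_mul_left h3 hc

theorem fw_lower (I : Finset ι) (S : ι → Finset Ω) (W Y : Finset Ω) (s : ℕ)
    (hS : ∀ i ∈ I, ∀ j ∈ I, i ≠ j → s ≤ (W.filter fun x => ¬ (x ∈ S i ↔ x ∈ S j)).card) :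
    I.card * s ≤ 2 * ∑ x ∈ W, fw I S Y x + (I.image (tr S Y)).card * s := by
  classical
  have h1 : ∀ B ∈ I.image (tr S Y), (cl I S Y B).card * s ≤
      2 * ∑ x ∈ W, min ((cl I S Y B).filter fun i => x ∉ S i).card
      ((cl I S Y B).filter fun i => x ∈ S i).card + s := by
    intro B _
    apply class_lower
    intro i hi j hj hij
    exact hS i (mem_filter.1 hi).1 j (mem_filter.1 hj).1 hij
  have h2 := sum_le_sum h1
  rw [← sum_mul, sum_add_distrib, sum_const, smul_eq_mul, ← mul_sum, sum_comm] at h2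
  have h3 : ∑ B ∈ I.image (tr S Y), (cl I S Y B).card = I.card := by
    rw [card_eq_sum_card_fiberwise (f := tr S Y) (s := I) (t := I.image (tr S Y))
      (fun i hi => mem_image_of_mem _ hi)]
    rfl
  rw [h3] at h2
  exact h2

/-- double counting pairs `x ∈ Y` -/
theorem sum_powersetCard_erase (W : Finset Ω) (m : ℕ) (f : Finset Ω → Ω → ℕ)
    (hf : ∀ Y x, x ∈ Y → f Y x = 0) :
    ∑ Y ∈ powersetCard (m + 1) W, ∑ x ∈ Y, f (Y.erase x) x =
      ∑ Y ∈ powersetCard m W, ∑ x ∈ W, f Y x := by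
  classical
  have h1 : ∀ Y ∈ powersetCard m W, ∑ x ∈ W, f Y x = ∑ x ∈ W \ Y, f Y x := by
    intro Y hY
    have hYW := (mem_powersetCard.1 hY).1
    rw [← sum_sdiff hYW]
    rw [sum_eq_zero (s := Y) fun x hx => hf Y x hx, add_zero]
  rw [sum_congr rfl h1, sum_sigma', sum_sigma']
  refine sum_bij' (fun q _ => ⟨q.1.erase q.2, q.2⟩) (fun q _ => ⟨insert q.2 q.1, q.2⟩) ?_ ?_ ?_ ?_ ?_
  · rintro ⟨Y, x⟩ hq
    simp only [mem_sigma, mem_powersetCard, mem_sdiff, mem_erase] at hq ⊢
    refine ⟨⟨(erase_subset _ _).trans hq.1.1, ?_⟩, hq.1.1 hq.2, fun h => h.1 rfl⟩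
    rw [card_erase_of_mem hq.2, hq.1.2, Nat.add_sub_cancel]
  · rintro ⟨Y, x⟩ hq
    simp only [mem_sigma, mem_powersetCard, mem_sdiff] at hq ⊢
    refine ⟨⟨insert_subset hq.2.1 hq.1.1, ?_⟩, mem_insert_self _ _⟩
    rw [card_insert_of_notMem hq.2.2, hq.1.2]
  · rintro ⟨Y, x⟩ hq
    simp only [mem_sigma] at hq
    simp only [insert_erase hq.2]
  · rintro ⟨Y, x⟩ hq
    simp only [mem_sigma, mem_sdiff] at hq
    simp only [erase_insert hq.2.2]
  · rintro ⟨Y, x⟩ _
    rfl

/-- **Haussler's packing lemma.** -/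
theorem haussler (I : Finset ι) (S : ι → Finset Ω) (W : Finset Ω) (s m D : ℕ) (hs : 1 ≤ s)
    (hS : ∀ i ∈ I, ∀ j ∈ I, i ≠ j → s ≤ (W.filter fun x => ¬ (x ∈ S i ↔ x ∈ S j)).card)
    (hm : 4 * D * W.card ≤ (m + 1) * s) (hD1 : 1 ≤ D)
    (hD : ∀ Z : Finset Ω, (∀ B ⊆ Z, ∃ i ∈ I, tr S Z i = B) → Z.card ≤ D) :
    I.card ≤ 2 * ∑ i ∈ range (D + 1), m.choose i := by
  classical
  rcases le_total W.card m with hWm | hmW
  · -- the traces on `W` are distinct
    have h1 : (I.image (tr S W)).card = I.card := by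
      apply card_image_of_injOn
      intro i hi j hj hij
      by_contra hne
      have h2 := hS i hi j hj hne
      have h3 : (W.filter fun x => ¬ (x ∈ S i ↔ x ∈ S j)) = ∅ := by
        apply filter_false_of_mem
        intro x hx h4
        apply h4
        have h5 : x ∈ tr S W i ↔ x ∈ tr S W j := by rw [hij]
        rw [mem_tr, mem_tr] at h5
        exact ⟨fun h => (h5.1 ⟨hx, h⟩).2, fun h => (h5.2 ⟨hx, h⟩).2⟩
      rw [h3, card_empty] at h2
      omega
    have h2 := card_traces I S D hD W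
    rw [h1] at h2
    have h3 : ∑ i ∈ range (D + 1), W.card.choose i ≤ ∑ i ∈ range (D + 1), m.choose i :=
      sum_le_sum fun i _ => Nat.choose_le_choose i hWm
    omega
  · set T := ∑ i ∈ range (D + 1), m.choose i with hT
    have hlow : ∀ Y ∈ powersetCard m W, I.card * s ≤ 2 * ∑ x ∈ W, fw I S Y x + T * s := by
      intro Y hY
      have h1 := fw_lower I S W Y s hS
      have h2 := card_traces I S D hD Y
      rw [(mem_powersetCard.1 hY).2, ← hT] at h2
      have h3 := Nat.mul_le_mul_right s h2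
      omega
    have h1 := sum_le_sum hlow
    rw [sum_const, smul_eq_mul, card_powersetCard, sum_add_distrib, sum_const, smul_eq_mul,
      card_powersetCard, ← mul_sum,
      ← sum_powersetCard_erase W m (fw I S) (fun Y x hx => fw_eq_zero I S Y x hx)] at h1
    have h2 : ∑ Y ∈ powersetCard (m + 1) W, ∑ x ∈ Y, fw I S (Y.erase x) x ≤
        W.card.choose (m + 1) * (D * I.card) := by
      refine (sum_le_sum fun Y _ => fw_sum I S D hD Y).trans (le_of_eq ?_)
      rw [sum_const, smul_eq_mul, card_powersetCard]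
    have h3 : W.card.choose (m + 1) * (m + 1) = W.card.choose m * (W.card - m) :=
      Nat.choose_succ_right_eq _ _
    have hch : 0 < W.card.choose m := Nat.choose_pos hmW
    -- combine
    have h4 : W.card.choose m * ((m + 1) * (I.card * s)) ≤
        W.card.choose m * (2 * (D * I.card) * W.card + (m + 1) * (T * s)) := by
      calc W.card.choose m * ((m + 1) * (I.card * s))
          = (m + 1) * (W.card.choose m * (I.card * s)) := by ring
        _ ≤ (m + 1) * (2 * (W.card.choose (m + 1) * (D * I.card)) + W.card.choose m * (T * s)) :=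
          Nat.mul_le_mul_left _ (by omega)
        _ = 2 * (W.card.choose (m + 1) * (m + 1)) * (D * I.card) +
            W.card.choose m * ((m + 1) * (T * s)) := by ring
        _ ≤ 2 * (W.card.choose m * W.card) * (D * I.card) +
            W.card.choose m * ((m + 1) * (T * s)) := by
          rw [h3]
          apply Nat.add_le_add_right
          apply Nat.mul_le_mul_right
          apply Nat.mul_le_mul_left
          exact Nat.mul_le_mul_left _ (Nat.sub_le _ _)
        _ = _ := by ring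
    have h5 := Nat.le_of_mul_le_mul_left h4 hch
    -- 4 D |W| ≤ (m + 1) s
    have h6 : 2 * (D * I.card) * W.card * 2 ≤ I.card * ((m + 1) * s) := by
      calc 2 * (D * I.card) * W.card * 2 = I.card * (4 * D * W.card) := by ring
        _ ≤ _ := Nat.mul_le_mul_left _ hm
    have h7 : I.card * ((m + 1) * s) ≤ 2 * T * ((m + 1) * s) := by
      have e1 : (m + 1) * (I.card * s) = I.card * ((m + 1) * s) := by ring
      have e2 : (m + 1) * (T * s) * 2 = 2 * T * ((m + 1) * s) := by ring
      rw [e1] at h5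
      omega
    exact Nat.le_of_mul_le_mul_right h7 (by positivity)

/-- `∑_{i ≤ D} C(m, i) ≤ (e m / D) ^ D` -/
theorem sum_choose_le_exp {m D : ℕ} (hD : 1 ≤ D) (hm : D ≤ m) :
    ((∑ i ∈ range (D + 1), m.choose i : ℕ) : ℝ) ≤ (Real.exp 1 * m / D) ^ D := by
  have hD' : (0 : ℝ) < D := by exact_mod_cast hD
  have hm' : (0 : ℝ) < m := by exact_mod_cast hD.trans hm
  have hr : (D : ℝ) / m ≤ 1 := by
    rw [div_le_one hm']; exact_mod_cast hm
  have hr0 : (0 : ℝ) < D / m := by positivity
  have h1 : ((D : ℝ) / m) ^ D * ((∑ i ∈ range (D + 1), m.choose i : ℕ) : ℝ) ≤ Real.exp D := by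
    push_cast
    rw [mul_sum]
    calc ∑ i ∈ range (D + 1), ((D : ℝ) / m) ^ D * (m.choose i : ℝ)
        ≤ ∑ i ∈ range (D + 1), ((D : ℝ) / m) ^ i * (m.choose i : ℝ) := by
          apply sum_le_sum
          intro i hi
          rw [mem_range] at hi
          apply mul_le_mul_of_nonneg_right _ (Nat.cast_nonneg _)
          exact pow_le_pow_of_le_one hr0.le hr (by omega)
      _ ≤ ∑ i ∈ range (m + 1), ((D : ℝ) / m) ^ i * (m.choose i : ℝ) := by
          apply sum_le_sum_of_subset_of_nonneg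
          · intro i hi
            rw [mem_range] at hi ⊢
            omega
          · intro i _ _
            positivity
      _ = (D / m + 1) ^ m := by
          rw [add_pow]
          apply sum_congr rfl
          intro i _
          rw [one_pow, mul_one]
      _ ≤ Real.exp (D / m) ^ m := by
          apply pow_le_pow_left₀ (by positivity)
          exact Real.add_one_le_exp _
      _ = Real.exp D := by
          rw [← Real.exp_nat_mul]
          congr 1
          field_simp
  have h2 : (Real.exp 1 * m / D) ^ D = Real.exp D / ((D : ℝ) / m) ^ D := by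
    have e : Real.exp 1 * m / D = Real.exp 1 / (D / m) := by
      field_simp
    rw [e, div_pow, ← Real.exp_nat_mul, mul_one]
  rw [h2, le_div_iff₀ (by positivity), mul_comm]
  exact h1

/-- the packing lemma in the form used below -/
theorem haussler_real (I : Finset ι) (S : ι → Finset Ω) (W : Finset Ω) (D : ℕ) (s : ℝ)
    (hs : 0 < s) (hsW : s ≤ W.card)
    (hS : ∀ i ∈ I, ∀ j ∈ I, i ≠ j →
      s ≤ ((W.filter fun x => ¬ (x ∈ S i ↔ x ∈ S j)).card : ℝ)) (hD1 : 1 ≤ D)
    (hD : ∀ Z : Finset Ω, (∀ B ⊆ Z, ∃ i ∈ I, tr S Z i = B) → Z.card ≤ D) :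
    (I.card : ℝ) ≤ 2 * (4 * Real.exp 1 * (W.card / s)) ^ D := by
  have hD' : (0 : ℝ) < D := by exact_mod_cast hD1
  set s' := ⌈s⌉₊ with hs'
  have hs1 : s ≤ s' := Nat.le_ceil s
  have hs'1 : 1 ≤ s' := Nat.ceil_pos.2 hs
  set X : ℝ := 4 * D * (W.card / s) with hX
  have hWs : 1 ≤ (W.card : ℝ) / s := by rw [one_le_div hs]; exact hsW
  have hX4 : 4 * (D : ℝ) ≤ X := by
    rw [hX]
    nlinarith
  set m := ⌈X⌉₊ - 1 with hm
  have hXc : 4 * D ≤ ⌈X⌉₊ := by
    have : ((4 * D : ℕ) : ℝ) ≤ X := by push_cast; exact hX4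
    exact_mod_cast this.trans (Nat.le_ceil X)
  have hm1 : m + 1 = ⌈X⌉₊ := by omega
  have hmX : (m : ℝ) ≤ X := by
    have h1 := Nat.ceil_lt_add_one (show 0 ≤ X by linarith)
    have h2 : ((m + 1 : ℕ) : ℝ) < X + 1 := by rw [hm1]; exact h1
    push_cast at h2
    linarith
  have hDm : D ≤ m := by omega
  have hcond : 4 * D * W.card ≤ (m + 1) * s' := by
    have h1 : X * s ≤ ((m + 1 : ℕ) : ℝ) * s' := by
      apply mul_le_mul _ hs1 hs.le (Nat.cast_nonneg _)
      rw [hm1]
      exact Nat.le_ceil X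
    have h2 : X * s = 4 * D * W.card := by
      rw [hX]
      field_simp
    rw [h2] at h1
    exact_mod_cast h1
  have h := haussler I S W s' m D hs'1 (fun i hi j hj hij => Nat.ceil_le.2 (hS i hi j hj hij))
    hcond hD1 hD
  have h' : (I.card : ℝ) ≤ 2 * ((∑ i ∈ range (D + 1), m.choose i : ℕ) : ℝ) := by
    exact_mod_cast h
  refine h'.trans (mul_le_mul_of_nonneg_left ((sum_choose_le_exp hD1 hDm).trans ?_) (by norm_num))
  apply pow_le_pow_left₀ (by positivity)
  rw [div_le_iff₀ hD']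
  have h3 := mul_le_mul_of_nonneg_left hmX (Real.exp_pos 1).le
  refine h3.trans (le_of_eq ?_)
  rw [hX]
  ring

end Packing

end Pool.Agent.Q102.VC
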