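import Mathlib

set_option autoImplicit false

/-!
# Families of sets with pairwise large differences shatter large sets
-/

namespace Pool.Agent.Q102.VC

open Finset

theorem sum_choose_le (m D : ℕ) : ∑ i ∈ range (D + 1), m.choose i ≤ (m + 1) ^ D := by
  rw [add_pow]
  apply sum_le_sum
  intro i hi
  rw [mem_range] at hi
  have h1 : m.choose i ≤ m ^ i := Nat.choose_le_pow m i
  have h2 : 1 ≤ D.choose i := Nat.choose_pos (by omega)
  rw [one_pow, mul_one]
  calc m.choose i ≤ m ^ i * 1 := by rw [mul_one]; exact h1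
    _ ≤ m ^ i * D.choose i := Nat.mul_le_mul_left _ h2

theorem card_small_subsets {Ω : Type*} [DecidableEq Ω] (Y : Finset Ω) (D : ℕ) :
    (Y.powerset.filter fun Z => Z.card ≤ D).card ≤ (Y.card + 1) ^ D := by
  refine le_trans ?_ (sum_choose_le Y.card D)
  have h : (Y.powerset.filter fun Z => Z.card ≤ D) ⊆
      (range (D + 1)).biUnion fun i => powersetCard i Y := by
    intro Z hZ
    rw [mem_filter, mem_powerset] at hZ
    rw [mem_biUnion]
    exact ⟨Z.card, mem_range.2 (by omega), mem_powersetCard.2 ⟨hZ.1, rfl⟩⟩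
  refine (card_le_card h).trans (card_biUnion_le.trans (le_of_eq ?_))
  exact sum_congr rfl fun i _ => card_powersetCard i Y

/-- a finite set of points which separates the members of the family -/
theorem exists_sample {Ω ι : Type*} [DecidableEq Ω] (I : Finset ι) (S : ι → Finset Ω)
    (W : Finset Ω) (s m : ℕ) (hS : ∀ i ∈ I, ∀ j ∈ I, i ≠ j →
      s ≤ (W.filter fun x => ¬ (x ∈ S i ↔ x ∈ S j)).card)
    (hm : I.card ^ 2 * (W.card - s) ^ m < W.card ^ m) :
    ∃ Y ⊆ W, Y.card ≤ m ∧ ∀ i ∈ I, ∀ j ∈ I, i ≠ j → ∃ x ∈ Y, ¬ (x ∈ S i ↔ x ∈ S j) := by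
  classical
  by_contra hcon
  push Not at hcon
  -- all samples are bad
  have h1 : Fintype.piFinset (fun _ : Fin m => W) ⊆
      ((I ×ˢ I).filter fun p => p.1 ≠ p.2).biUnion fun p =>
        Fintype.piFinset fun _ : Fin m => W.filter fun x => (x ∈ S p.1 ↔ x ∈ S p.2) := by
    intro y hy
    rw [Fintype.mem_piFinset] at hy
    obtain ⟨i, hi, j, hj, hij, h⟩ := hcon (univ.image y) (by
      intro x hx
      obtain ⟨a, -, rfl⟩ := mem_image.1 hx
      exact hy a) (card_image_le.trans (by rw [card_univ, Fintype.card_fin]))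
    rw [mem_biUnion]
    refine ⟨(i, j), mem_filter.2 ⟨mem_product.2 ⟨hi, hj⟩, hij⟩, ?_⟩
    rw [Fintype.mem_piFinset]
    intro a
    rw [mem_filter]
    exact ⟨hy a, h (y a) (mem_image_of_mem _ (mem_univ _))⟩
  have h2 := (card_le_card h1).trans card_biUnion_le
  rw [Fintype.card_piFinset] at h2
  simp only [prod_const, card_univ, Fintype.card_fin] at h2
  have h3 : ∀ p ∈ (I ×ˢ I).filter (fun p => p.1 ≠ p.2),
      (Fintype.piFinset fun _ : Fin m => W.filter fun x => (x ∈ S p.1 ↔ x ∈ S p.2)).card ≤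
        (W.card - s) ^ m := by
    intro p hp
    rw [mem_filter, mem_product] at hp
    rw [Fintype.card_piFinset]
    simp only [prod_const, card_univ, Fintype.card_fin]
    apply Nat.pow_le_pow_left
    have h4 := hS p.1 hp.1.1 p.2 hp.1.2 hp.2
    have h5 := card_filter_add_card_filter_not (s := W) (fun x => (x ∈ S p.1 ↔ x ∈ S p.2))
    omega
  have h4 := sum_le_sum h3
  rw [sum_const, smul_eq_mul] at h4
  have h5 : ((I ×ˢ I).filter fun p => p.1 ≠ p.2).card ≤ I.card ^ 2 := by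
    refine (card_filter_le _ _).trans ?_
    rw [card_product, sq]
  have h6 := Nat.mul_le_mul_right ((W.card - s) ^ m) h5
  omega

/-- **A family whose members are pairwise far apart shatters a large set.** -/
theorem pack {Ω ι : Type*} [DecidableEq Ω] (I : Finset ι) (S : ι → Finset Ω)
    (W : Finset Ω) (s m D : ℕ) (hS : ∀ i ∈ I, ∀ j ∈ I, i ≠ j →
      s ≤ (W.filter fun x => ¬ (x ∈ S i ↔ x ∈ S j)).card)
    (hm : I.card ^ 2 * (W.card - s) ^ m < W.card ^ m)
    (hD : ∀ Z : Finset Ω, (∀ B ⊆ Z, ∃ i ∈ I, Z.filter (fun x => x ∈ S i) = B) → Z.card ≤ D) :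
    I.card ≤ (m + 1) ^ D := by
  classical
  obtain ⟨Y, -, hYm, hY⟩ := exists_sample I S W s m hS hm
  set 𝒜 : Finset (Finset Ω) := I.image fun i => Y.filter fun x => x ∈ S i with h𝒜
  have hcard : 𝒜.card = I.card := by
    rw [h𝒜, card_image_of_injOn]
    intro i hi j hj hij
    by_contra hne
    obtain ⟨x, hxY, hx⟩ := hY i hi j hj hne
    apply hx
    have : x ∈ Y.filter (fun x => x ∈ S i) ↔ x ∈ Y.filter (fun x => x ∈ S j) := by
      simp only at hij
      rw [hij]
    rw [mem_filter, mem_filter] at this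
    constructor
    · intro h; exact (this.1 ⟨hxY, h⟩).2
    · intro h; exact (this.2 ⟨hxY, h⟩).2
  have h1 := card_le_card_shatterer 𝒜
  have h2 : 𝒜.shatterer ⊆ Y.powerset.filter fun Z => Z.card ≤ D := by
    intro Z hZ
    rw [mem_shatterer] at hZ
    have hZY : Z ⊆ Y := by
      obtain ⟨u, hu, hZu⟩ := hZ (Subset.refl Z)
      obtain ⟨i, -, rfl⟩ := mem_image.1 hu
      intro x hx
      rw [← hZu] at hx
      exact (mem_filter.1 (mem_inter.1 hx).2).1
    rw [mem_filter, mem_powerset]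
    refine ⟨hZY, hD Z fun B hB => ?_⟩
    obtain ⟨u, hu, hZu⟩ := hZ hB
    obtain ⟨i, hi, rfl⟩ := mem_image.1 hu
    refine ⟨i, hi, ?_⟩
    rw [← hZu]
    ext x
    rw [mem_filter, mem_inter, mem_filter]
    constructor
    · rintro ⟨h3, h4⟩; exact ⟨h3, hZY h3, h4⟩
    · rintro ⟨h3, -, h4⟩; exact ⟨h3, h4⟩
  rw [← hcard]
  refine h1.trans ((card_le_card h2).trans ((card_small_subsets Y D).trans ?_))
  exact Nat.pow_le_pow_left (by omega) D

/-- the hypothesis of `pack` in terms of logarithms -/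
theorem sample_size {M U s m : ℕ} (hM : 1 ≤ M) (hU : 1 ≤ U) (hs : s ≤ U)
    (h : 2 * Real.log M * U < m * s) : M ^ 2 * (U - s) ^ m < U ^ m := by
  have hU' : (0 : ℝ) < U := by exact_mod_cast hU
  have hM' : (0 : ℝ) < M := by exact_mod_cast hM
  have h1 : (((U - s : ℕ) : ℝ)) ≤ U * Real.exp (-((s : ℝ) / U)) := by
    rw [Nat.cast_sub hs]
    have h2 := Real.add_one_le_exp (-((s : ℝ) / U))
    have h3 := mul_le_mul_of_nonneg_left h2 hU'.le
    have e : (U : ℝ) * (-((s : ℝ) / U) + 1) = U - s := by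
      field_simp
      ring
    linarith
  have h2 : (((U - s : ℕ) : ℝ)) ^ m ≤ (U : ℝ) ^ m * Real.exp (-(m * ((s : ℝ) / U))) := by
    refine (pow_le_pow_left₀ (Nat.cast_nonneg _) h1 m).trans (le_of_eq ?_)
    rw [mul_pow, ← Real.exp_nat_mul]
    congr 2
    ring
  have h3 : (M : ℝ) ^ 2 * Real.exp (-(m * ((s : ℝ) / U))) < 1 := by
    have e : (M : ℝ) ^ 2 = Real.exp (2 * Real.log M) := by
      rw [two_mul, Real.exp_add, Real.exp_log hM', sq]
    rw [e, ← Real.exp_add, Real.exp_lt_one_iff]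
    have : 2 * Real.log M < m * ((s : ℝ) / U) := by
      rw [← mul_div_assoc, lt_div_iff₀ hU']
      exact h
    linarith
  have h4 : ((M ^ 2 * (U - s) ^ m : ℕ) : ℝ) < ((U ^ m : ℕ) : ℝ) := by
    rw [Nat.cast_mul, Nat.cast_pow, Nat.cast_pow, Nat.cast_pow]
    have h5 : (0 : ℝ) < (U : ℝ) ^ m := by positivity
    calc (M : ℝ) ^ 2 * (((U - s : ℕ) : ℝ)) ^ m ≤
        (M : ℝ) ^ 2 * ((U : ℝ) ^ m * Real.exp (-(m * ((s : ℝ) / U)))) :=
          mul_le_mul_of_nonneg_left h2 (by positivity)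
      _ = (M : ℝ) ^ 2 * Real.exp (-(m * ((s : ℝ) / U))) * (U : ℝ) ^ m := by ring
      _ < 1 * (U : ℝ) ^ m := mul_lt_mul_of_pos_right h3 h5
      _ = (U : ℝ) ^ m := one_mul _
  exact_mod_cast h4

end Pool.Agent.Q102.VC
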