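import Mathlib

set_option autoImplicit false

/-!
# Graphs of quadratic forms have small VC dimension
-/

namespace Pool.Agent.Q102.VC

open Finset

/-- `D` bounds the size of the sets `Z` such that `Z` and all `Z \ {z}` are traces of translates -/
def Lc {G : Type*} [AddCommGroup G] [DecidableEq G] (A : Finset G) (D : ℕ) : Prop :=
  ∀ Z : Finset G, (∃ t0, ∀ x ∈ Z, x - t0 ∈ A) →
    (∀ z ∈ Z, ∃ t, ∀ x ∈ Z, x ∈ Z.erase z ↔ x - t ∈ A) → Z.card ≤ D

/-- no three-term progressions -/
def F3 {G : Type*} [AddCommGroup G] (A : Finset G) : Prop :=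
  ∀ x y : G, x ∈ A → x + y ∈ A → x + 2 • y ∈ A → y = 0

section Surf

variable {K : Type*} [Field K] [Fintype K] [DecidableEq K] {m : ℕ}

/-- the graph of a diagonal quadratic form -/
def surf (a : Fin m → K) : Finset ((Fin m → K) × K) :=
  univ.filter fun v => v.2 = ∑ i, a i * v.1 i ^ 2

theorem mem_surf (a : Fin m → K) (v : (Fin m → K) × K) :
    v ∈ surf a ↔ v.2 = ∑ i, a i * v.1 i ^ 2 := by
  rw [surf, mem_filter]
  simp

theorem surf_card (a : Fin m → K) : (surf a).card = Fintype.card K ^ m := by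
  have : surf a = (univ : Finset (Fin m → K)).image fun v => (v, ∑ i, a i * v i ^ 2) := by
    ext v
    rw [mem_surf, mem_image]
    constructor
    · intro h
      exact ⟨v.1, mem_univ _, by rw [← h]⟩
    · rintro ⟨w, -, rfl⟩
      rfl
  rw [this, card_image_of_injective _ (fun v w h => (Prod.ext_iff.1 h).1)]
  simp

theorem surf_Lc (a : Fin m → K) : Lc (surf a) (m + 1) := by
  intro Z ht0 ht
  obtain ⟨t0, ht0⟩ := ht0
  let u : Z → (Fin (m + 1) → K) := fun z => Fin.cons 1 fun i => (z.1 - t0).1 i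
  have hli : LinearIndependent K u := by
    rw [Fintype.linearIndependent_iff]
    intro g hg z0
    obtain ⟨z0, hz0⟩ := z0
    obtain ⟨t, ht⟩ := ht z0 hz0
    let v := t - t0
    let h : ((Fin m → K) × K) → K := fun y => ∑ i, a i * (2 * y.1 i * v.1 i - v.1 i ^ 2) - v.2
    have hiff : ∀ x ∈ Z, (x - t ∈ surf a ↔ h (x - t0) = 0) := by
      intro x hx
      have h1 := ht0 x hx
      rw [mem_surf] at h1 ⊢
      have e : x - t = (x - t0) - v := by simp [v]
      rw [e]
      set y := x - t0
      have e1 : (y - v).2 = y.2 - v.2 := rfl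
      have e2 : ∀ i, (y - v).1 i = y.1 i - v.1 i := fun i => rfl
      have e3 : ∑ i, a i * (y - v).1 i ^ 2 = ∑ i, a i * y.1 i ^ 2 -
          ∑ i, a i * (2 * y.1 i * v.1 i - v.1 i ^ 2) := by
        rw [← sum_sub_distrib]
        apply sum_congr rfl
        intro i _
        rw [e2 i]
        ring
      rw [e1, e3, h1]
      show _ ↔ ∑ i, a i * (2 * y.1 i * v.1 i - v.1 i ^ 2) - v.2 = 0
      constructor
      · intro h2
        linear_combination h2
      · intro h2
        linear_combination h2
    have hh : ∀ x ∈ Z, x ≠ z0 → h (x - t0) = 0 := fun x hx hxz =>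
      (hiff x hx).1 ((ht x hx).1 (mem_erase.2 ⟨hxz, hx⟩))
    have hhz : h (z0 - t0) ≠ 0 := by
      intro hz
      have := (ht z0 hz0).2 ((hiff z0 hz0).2 hz)
      exact (mem_erase.1 this).1 rfl
    have hrel : ∀ j : Fin (m + 1), ∑ z, g z * u z j = 0 := by
      intro j
      have := congrFun hg j
      simpa [Finset.sum_apply, Pi.smul_apply, smul_eq_mul] using this
    have hu0 : ∀ z, u z 0 = 1 := fun z => rfl
    have hus : ∀ z (i : Fin m), u z i.succ = (z.1 - t0).1 i := fun z i => rfl
    have hcomb : ∑ z, g z * h (z.1 - t0) = 0 := by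
      have e1 : ∀ z : Z, g z * h (z.1 - t0) =
          ∑ i : Fin m, (2 * a i * v.1 i * (g z * u z i.succ) -
            a i * v.1 i ^ 2 * (g z * u z 0)) - v.2 * (g z * u z 0) := by
        intro z
        rw [hu0]
        show g z * (∑ i, a i * (2 * (z.1 - t0).1 i * v.1 i - v.1 i ^ 2) - v.2) = _
        rw [mul_sub, mul_sum]
        congr 1
        · apply sum_congr rfl
          intro i _
          rw [hus]
          ring
        · ring
      rw [sum_congr rfl fun z _ => e1 z, sum_sub_distrib, ← mul_sum, hrel, mul_zero, sub_zero,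
        sum_comm]
      apply sum_eq_zero
      intro i _
      rw [sum_sub_distrib, ← mul_sum, ← mul_sum, hrel, hrel, mul_zero, mul_zero, sub_self]
    rw [sum_eq_single_of_mem (⟨z0, hz0⟩ : Z) (mem_univ _)] at hcomb
    · rcases mul_eq_zero.1 hcomb with h1 | h1
      · exact h1
      · exact absurd h1 hhz
    · intro z _ hzz
      rw [hh z.1 z.2 (fun h1 => hzz (Subtype.ext h1)), mul_zero]
  have hc := hli.fintype_card_le_finrank
  rw [Module.finrank_fin_fun, Fintype.card_coe] at hc
  exact hc

theorem surf_F3 (a : Fin m → K) (h2 : (2 : K) ≠ 0)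
    (ha : ∀ x : Fin m → K, ∑ i, a i * x i ^ 2 = 0 → x = 0) : F3 (surf a) := by
  intro x y h0 h1 h3
  rw [mem_surf] at h0 h1 h3
  have e1 : (x + y).2 = x.2 + y.2 := rfl
  have e2 : (x + 2 • y).2 = x.2 + 2 * y.2 := by
    show x.2 + (2 • y).2 = _
    rw [Prod.smul_snd, nsmul_eq_mul]
    norm_num
  have e3 : ∀ i, (x + y).1 i = x.1 i + y.1 i := fun i => rfl
  have e4 : ∀ i, (x + 2 • y).1 i = x.1 i + 2 * y.1 i := by
    intro i
    show x.1 i + (2 • y).1 i = _
    rw [Prod.smul_fst, Pi.smul_apply, nsmul_eq_mul]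
    norm_num
  rw [e1, sum_congr rfl fun i _ => by rw [e3 i]] at h1
  rw [e2, sum_congr rfl fun i _ => by rw [e4 i]] at h3
  have h5 : 2 * ∑ i, a i * y.1 i ^ 2 = 0 := by
    have : 2 * ∑ i, a i * y.1 i ^ 2 = ∑ i, a i * (x.1 i + 2 * y.1 i) ^ 2 -
        2 * ∑ i, a i * (x.1 i + y.1 i) ^ 2 + ∑ i, a i * x.1 i ^ 2 := by
      rw [mul_sum, mul_sum, ← sum_sub_distrib, ← sum_add_distrib]
      apply sum_congr rfl
      intro i _
      ring
    rw [this, ← h0, ← h1, ← h3]
    ring
  have hy1 := ha y.1 ((mul_eq_zero.1 h5).resolve_left h2)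
  have hy2 : y.2 = 0 := by
    have h6 : x.2 + y.2 = x.2 := by
      rw [h1, h0]
      apply sum_congr rfl
      intro i _
      rw [congrFun hy1 i]
      simp
    simpa using h6
  exact Prod.ext hy1 hy2

end Surf

section Transport

variable {G H : Type*} [AddCommGroup G] [AddCommGroup H] [DecidableEq G] [DecidableEq H]

theorem Lc_pad {A : Finset G} {D : ℕ} (hD : 1 ≤ D) (hA : Lc A D) :
    Lc (A ×ˢ ({0} : Finset H)) D := by
  intro Z ht0 ht
  obtain ⟨t0, ht0⟩ := ht0
  by_contra hcon
  push Not at hcon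
  have hsec : ∀ x ∈ Z, x.2 = t0.2 := by
    intro x hx
    have h1 := (mem_product.1 (ht0 x hx)).2
    rw [mem_singleton] at h1
    exact sub_eq_zero.1 h1
  have hinj : Set.InjOn Prod.fst (Z : Set (G × H)) := by
    intro x hx y hy hxy
    exact Prod.ext hxy ((hsec x hx).trans (hsec y hy).symm)
  have hc : (Z.image Prod.fst).card = Z.card := card_image_of_injOn hinj
  have := hA (Z.image Prod.fst) ⟨t0.1, ?_⟩ ?_
  · omega
  · intro x hx
    obtain ⟨z, hz, rfl⟩ := mem_image.1 hx
    exact (mem_product.1 (ht0 z hz)).1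
  · intro x hx
    obtain ⟨z, hz, rfl⟩ := mem_image.1 hx
    obtain ⟨t, ht⟩ := ht z hz
    have ht2 : t.2 = t0.2 := by
      have h1 : 0 < (Z.erase z).card := by
        rw [card_erase_of_mem hz]; omega
      obtain ⟨w, hw⟩ := card_pos.1 h1
      have h2 := (mem_product.1 ((ht w (mem_erase.1 hw).2).1 hw)).2
      rw [mem_singleton] at h2
      rw [← hsec w (mem_erase.1 hw).2]
      exact (sub_eq_zero.1 h2).symm
    refine ⟨t.1, fun x hx => ?_⟩
    obtain ⟨w, hw, rfl⟩ := mem_image.1 hx
    have h1 := ht w hw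
    rw [mem_product, mem_singleton] at h1
    have h2 : (w - t).2 = 0 := by
      show w.2 - t.2 = 0
      rw [hsec w hw, ht2, sub_self]
    have h3 : w.1 ∈ (Z.image Prod.fst).erase z.1 ↔ w ∈ Z.erase z := by
      rw [mem_erase, mem_erase]
      constructor
      · rintro ⟨h4, _⟩
        exact ⟨fun h => h4 (by rw [h]), hw⟩
      · rintro ⟨h4, _⟩
        exact ⟨fun h => h4 (hinj hw hz h), mem_image_of_mem _ hw⟩
    rw [h3, h1]
    exact ⟨fun h => h.1, fun h => ⟨h, h2⟩⟩

theorem F3_pad {A : Finset G} (hA : F3 A) : F3 (A ×ˢ ({0} : Finset H)) := by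
  intro x y h0 h1 h2
  rw [mem_product, mem_singleton] at h0 h1 h2
  have e1 : y.1 = 0 := by
    apply hA x.1 y.1 h0.1 h1.1
    have := h2.1
    rwa [Prod.fst_add, Prod.smul_fst] at this
  have e2 : y.2 = 0 := by
    have h3 : x.2 + y.2 = 0 := h1.2
    rw [h0.2, zero_add] at h3
    exact h3
  exact Prod.ext e1 e2

theorem Lc_equiv (e : H ≃+ G) {A : Finset G} {D : ℕ} (hA : Lc A D) :
    Lc (A.map e.symm.toEquiv.toEmbedding) D := by
  have hmem : ∀ x : H, x ∈ A.map e.symm.toEquiv.toEmbedding ↔ e x ∈ A := by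
    intro x
    rw [mem_map]
    constructor
    · rintro ⟨a, ha, rfl⟩
      have : e (e.symm.toEquiv.toEmbedding a) = a := e.apply_symm_apply a
      rwa [this]
    · intro h
      exact ⟨e x, h, e.symm_apply_apply x⟩
  intro Z ht0 ht
  obtain ⟨t0, ht0⟩ := ht0
  have hc : (Z.image e).card = Z.card := card_image_of_injective _ e.injective
  rw [← hc]
  apply hA
  · refine ⟨e t0, fun x hx => ?_⟩
    obtain ⟨z, hz, rfl⟩ := mem_image.1 hx
    have := (hmem _).1 (ht0 z hz)
    rwa [map_sub] at this
  · intro x hx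
    obtain ⟨z, hz, rfl⟩ := mem_image.1 hx
    obtain ⟨t, ht⟩ := ht z hz
    refine ⟨e t, fun x hx => ?_⟩
    obtain ⟨w, hw, rfl⟩ := mem_image.1 hx
    have h1 := ht w hw
    rw [hmem, map_sub] at h1
    rw [← h1, mem_erase, mem_erase]
    constructor
    · rintro ⟨h2, _⟩
      exact ⟨fun h => h2 (by rw [h]), hw⟩
    · rintro ⟨h2, _⟩
      exact ⟨fun h => h2 (e.injective h), mem_image_of_mem _ hw⟩

theorem F3_equiv (e : H ≃+ G) {A : Finset G} (hA : F3 A) :
    F3 (A.map e.symm.toEquiv.toEmbedding) := by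
  have hmem : ∀ x : H, x ∈ A.map e.symm.toEquiv.toEmbedding ↔ e x ∈ A := by
    intro x
    rw [mem_map]
    constructor
    · rintro ⟨a, ha, rfl⟩
      have : e (e.symm.toEquiv.toEmbedding a) = a := e.apply_symm_apply a
      rwa [this]
    · intro h
      exact ⟨e x, h, e.symm_apply_apply x⟩
  intro x y h0 h1 h2
  rw [hmem] at h0 h1 h2
  rw [map_add] at h1 h2
  rw [map_nsmul] at h2
  have := hA _ _ h0 h1 h2
  simpa using this

end Transport

/-- the sets in `F_p^n` -/
theorem exists_quad (p : ℕ) [Fact p.Prime] (hp : p ≠ 2) (m n : ℕ) (hm : m ≤ 2) :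
    ∃ A : Finset (Fin n → ZMod p), F3 A ∧ Lc A (m + 1) ∧ p ^ (m * (n / (m + 1))) ≤ A.card := by
  classical
  have hpp : p.Prime := Fact.out
  set r := n / (m + 1) with hr
  rcases Nat.eq_zero_or_pos r with hr0 | hr0
  · refine ⟨{0}, ?_, ?_, ?_⟩
    · intro x y h0 h1 _
      rw [mem_singleton] at h0 h1
      rw [h0, zero_add] at h1
      exact h1
    · intro Z ht0 _
      obtain ⟨t0, ht0⟩ := ht0
      have : Z ⊆ {t0} := by
        intro x hx
        have := ht0 x hx
        rw [mem_singleton] at this ⊢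
        exact sub_eq_zero.1 this
      have := card_le_card this
      rw [card_singleton] at this
      omega
    · rw [hr0, mul_zero, pow_zero, card_singleton]
  · let K := GaloisField p r
    have : Fintype K := Fintype.ofFinite K
    have hcard : Fintype.card K = p ^ r := by
      rw [← Nat.card_eq_fintype_card]
      exact GaloisField.card p r hr0.ne'
    have h2 : (2 : K) ≠ 0 := by
      intro h
      have h3 : ((2 : ℕ) : K) = 0 := by exact_mod_cast h
      rw [CharP.cast_eq_zero_iff K p] at h3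
      have := (Nat.prime_dvd_prime_iff_eq hpp Nat.prime_two).1 h3
      exact hp this
    obtain ⟨a, ha⟩ : ∃ a : Fin m → K, ∀ x : Fin m → K, ∑ i, a i * x i ^ 2 = 0 → x = 0 := by
      interval_cases m
      · exact ⟨fun _ => 0, fun x _ => funext fun i => i.elim0⟩
      · refine ⟨fun _ => 1, fun x hx => ?_⟩
        rw [Fin.sum_univ_one, one_mul] at hx
        funext i
        rw [Fin.eq_zero i]
        exact pow_eq_zero_iff (two_ne_zero) |>.1 hx
      · have hchar : ringChar K ≠ 2 := by
          intro h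
          apply hp
          have h3 : p = ringChar K := (ringChar.eq K p).symm
          rw [h3, h]
        obtain ⟨c, hc⟩ := FiniteField.exists_nonsquare hchar
        refine ⟨![1, -c], fun x hx => ?_⟩
        rw [Fin.sum_univ_two] at hx
        have h3 : x 0 ^ 2 = c * x 1 ^ 2 := by
          simp at hx
          linear_combination hx
        have h4 : x 1 = 0 := by
          by_contra h4
          apply hc
          refine ⟨x 0 / x 1, ?_⟩
          rw [div_mul_div_comm, eq_div_iff (mul_ne_zero h4 h4)]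
          linear_combination -h3
        have h5 : x 0 = 0 := by
          rw [h4] at h3
          have : x 0 ^ 2 = 0 := by rw [h3]; ring
          exact pow_eq_zero_iff (two_ne_zero) |>.1 this
        funext i
        fin_cases i
        · exact h5
        · exact h4
    set s := n % (m + 1) with hs
    have hn : n = (m + 1) * r + s := (Nat.div_add_mod n (m + 1)).symm
    have hfin : Module.finrank (ZMod p) (Fin n → ZMod p) =
        Module.finrank (ZMod p) (((Fin m → K) × K) × (Fin s → ZMod p)) := by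
      have hK : Module.finrank (ZMod p) K = r := GaloisField.finrank p hr0.ne'
      rw [Module.finrank_fin_fun, Module.finrank_prod, Module.finrank_prod, Module.finrank_pi_fintype,
        Module.finrank_fin_fun, sum_const, card_univ, Fintype.card_fin, smul_eq_mul, hK]
      rw [hn]
      have : (m + 1) * r = m * r + r := by ring
      omega
    let e := (LinearEquiv.ofFinrankEq _ _ hfin).toAddEquiv
    refine ⟨(surf a ×ˢ ({0} : Finset (Fin s → ZMod p))).map e.symm.toEquiv.toEmbedding,
      F3_equiv e (F3_pad (surf_F3 a h2 ha)), Lc_equiv e (Lc_pad (by omega) (surf_Lc a)), ?_⟩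
    rw [card_map, card_product, card_singleton, mul_one, surf_card, hcard, ← pow_mul, mul_comm]

end Pool.Agent.Q102.VC
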