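import Mathlib

set_option autoImplicit false

/-!
# Sidon sets have VC dimension at most two
-/

namespace Pool.Agent.Q102.VC

open Finset

/-- differences are distinct -/
def SidonZ (A : Finset ℤ) : Prop :=
  ∀ a ∈ A, ∀ b ∈ A, ∀ c ∈ A, ∀ e ∈ A, a - b = c - e → a ≠ b → a = c

theorem sidon_vc {A : Finset ℤ} (hA : SidonZ A) (Z : Finset ℤ)
    (hZ : ∀ B ⊆ Z, ∃ t : ℤ, ∀ x ∈ Z, x ∈ B ↔ x - t ∈ A) : Z.card ≤ 2 := by
  by_contra hcon
  push Not at hcon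
  obtain ⟨a, b, c, ha, hb, hc, hab, hac, hbc⟩ := two_lt_card_iff.1 hcon
  obtain ⟨t0, ht0⟩ := hZ Z (Subset.refl Z)
  obtain ⟨t1, ht1⟩ := hZ (Z.erase c) (erase_subset _ _)
  have h1 := (ht0 a ha).1 ha
  have h2 := (ht0 b hb).1 hb
  have h3 := (ht0 c hc).1 hc
  have h4 := (ht1 a ha).1 (mem_erase.2 ⟨hac, ha⟩)
  have h5 := (ht1 b hb).1 (mem_erase.2 ⟨hbc, hb⟩)
  have hne : t0 ≠ t1 := by
    intro h
    have := (ht1 c hc).2 (h ▸ h3)
    exact (mem_erase.1 this).1 rfl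
  have := hA _ h1 _ h4 _ h2 _ h5 (by ring) (fun h => hne (by linarith))
  apply hab
  linarith

theorem sidon_free {A : Finset ℤ} (hA : SidonZ A) {a δ : ℤ} (hδ : 1 ≤ δ) (h0 : a ∈ A)
    (h1 : a + δ ∈ A) (h2 : a + 2 * δ ∈ A) : False := by
  have := hA _ h1 _ h0 _ h2 _ h1 (by ring) (by omega)
  omega

/-- the Erdős–Turán set -/
def et (p : ℕ) : Finset ℤ := (range p).image fun x : ℕ => 2 * (p : ℤ) * x + ((x ^ 2 % p : ℕ) : ℤ) + 1

theorem et_aux {p : ℕ} {x y z w : ℕ} (hx : x < p)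
    (hz : z < p) (hp : p.Prime) (hp2 : p ≠ 2)
    (h : (2 * (p : ℤ) * x + ((x ^ 2 % p : ℕ) : ℤ) + 1) - (2 * (p : ℤ) * y + ((y ^ 2 % p : ℕ) : ℤ) + 1) =
      (2 * (p : ℤ) * z + ((z ^ 2 % p : ℕ) : ℤ) + 1) - (2 * (p : ℤ) * w + ((w ^ 2 % p : ℕ) : ℤ) + 1))
    (hxy : ¬ (p : ℤ) ∣ (x : ℤ) - y) : x = z := by
  have hp0 : 0 < p := hp.pos
  have hm : ∀ v : ℕ, (0 : ℤ) ≤ ((v ^ 2 % p : ℕ) : ℤ) ∧ ((v ^ 2 % p : ℕ) : ℤ) < p := fun v =>
    ⟨Int.natCast_nonneg _, by exact_mod_cast Nat.mod_lt _ hp0⟩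
  obtain ⟨hx0, hx1⟩ := hm x
  obtain ⟨hy0, hy1⟩ := hm y
  obtain ⟨hz0, hz1⟩ := hm z
  obtain ⟨hw0, hw1⟩ := hm w
  set X : ℤ := ((x ^ 2 % p : ℕ) : ℤ) with hX
  set Y : ℤ := ((y ^ 2 % p : ℕ) : ℤ) with hY
  set Z : ℤ := ((z ^ 2 % p : ℕ) : ℤ) with hZ
  set W : ℤ := ((w ^ 2 % p : ℕ) : ℤ) with hW
  have hpz : (0 : ℤ) < p := by exact_mod_cast hp0
  -- the digits
  have e1 : 2 * (p : ℤ) * ((x : ℤ) - y - (z - w)) = Z - W - (X - Y) := by linarith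
  have e2 : (x : ℤ) - y = z - w := by
    have h1 : (x : ℤ) - y - (z - w) < 1 := by
      by_contra hc
      push Not at hc
      nlinarith
    have h2 : -1 < (x : ℤ) - y - (z - w) := by
      by_contra hc
      push Not at hc
      nlinarith
    omega
  have e3 : X - Y = Z - W := by
    rw [e2, sub_self, mul_zero] at e1
    linarith
  -- modulo p
  have hmod : ∀ v : ℕ, (p : ℤ) ∣ (v : ℤ) ^ 2 - ((v ^ 2 % p : ℕ) : ℤ) := by
    intro v
    have h1 := Int.emod_add_mul_ediv ((v : ℤ) ^ 2) p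
    refine ⟨(v : ℤ) ^ 2 / p, ?_⟩
    push_cast
    linarith
  have h4 : (p : ℤ) ∣ ((x : ℤ) ^ 2 - (y : ℤ) ^ 2) - ((z : ℤ) ^ 2 - (w : ℤ) ^ 2) := by
    have h5 := dvd_sub (dvd_sub (hmod x) (hmod y)) (dvd_sub (hmod z) (hmod w))
    rw [← hX, ← hY, ← hZ, ← hW] at h5
    have e : ((x : ℤ) ^ 2 - X - ((y : ℤ) ^ 2 - Y)) - ((z : ℤ) ^ 2 - Z - ((w : ℤ) ^ 2 - W)) =
        ((x : ℤ) ^ 2 - (y : ℤ) ^ 2) - ((z : ℤ) ^ 2 - (w : ℤ) ^ 2) := by linarith
    rwa [e] at h5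
  have h6 : ((x : ℤ) ^ 2 - (y : ℤ) ^ 2) - ((z : ℤ) ^ 2 - (w : ℤ) ^ 2) =
      ((x : ℤ) - y) * (2 * ((x : ℤ) - z)) := by
    have hw' : (w : ℤ) = z - (x - y) := by linarith
    rw [hw']
    ring
  rw [h6] at h4
  have hpp : Prime (p : ℤ) := Nat.prime_iff_prime_int.1 hp
  rcases hpp.dvd_or_dvd h4 with h7 | h7
  · exact absurd h7 hxy
  rcases hpp.dvd_or_dvd h7 with h8 | h8
  · exfalso
    have h9 : p ∣ 2 := by exact_mod_cast h8
    exact hp2 ((Nat.prime_dvd_prime_iff_eq hp Nat.prime_two).1 h9)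
  · have h9 : (x : ℤ) - z = 0 := by
      apply Int.eq_zero_of_abs_lt_dvd h8
      rw [abs_lt]
      constructor <;> omega
    omega

theorem et_sidon {p : ℕ} (hp : p.Prime) (hp2 : p ≠ 2) : SidonZ (et p) := by
  intro a ha b hb c hc e he h hab
  rw [et, mem_image] at ha hb hc he
  obtain ⟨x, hx, rfl⟩ := ha
  obtain ⟨y, hy, rfl⟩ := hb
  obtain ⟨z, hz, rfl⟩ := hc
  obtain ⟨w, hw, rfl⟩ := he
  rw [mem_range] at hx hy hz hw
  have hxy : ¬ (p : ℤ) ∣ (x : ℤ) - y := by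
    intro hd
    have h9 : (x : ℤ) - y = 0 := by
      apply Int.eq_zero_of_abs_lt_dvd hd
      rw [abs_lt]
      constructor <;> omega
    apply hab
    have : x = y := by omega
    rw [this]
  have := et_aux hx hz hp hp2 h hxy
  rw [this]

theorem et_card (p : ℕ) : (et p).card = p := by
  rw [et, card_image_of_injOn, card_range]
  intro x hx y hy h
  rw [mem_coe, mem_range] at hx hy
  have h' : 2 * (p : ℤ) * x + ((x ^ 2 % p : ℕ) : ℤ) + 1 =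
    2 * (p : ℤ) * y + ((y ^ 2 % p : ℕ) : ℤ) + 1 := h
  have hp0 : 0 < p := by omega
  have hm : ∀ v : ℕ, (0 : ℤ) ≤ ((v ^ 2 % p : ℕ) : ℤ) ∧ ((v ^ 2 % p : ℕ) : ℤ) < p := fun v =>
    ⟨Int.natCast_nonneg _, by exact_mod_cast Nat.mod_lt _ hp0⟩
  obtain ⟨hx0, hx1⟩ := hm x
  obtain ⟨hy0, hy1⟩ := hm y
  have hpz : (0 : ℤ) < p := by exact_mod_cast hp0
  have e1 : 2 * (p : ℤ) * ((x : ℤ) - y) =
      ((y ^ 2 % p : ℕ) : ℤ) - ((x ^ 2 % p : ℕ) : ℤ) := by linarith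
  have h1 : (x : ℤ) - y < 1 := by
    by_contra hc
    push Not at hc
    nlinarith
  have h2 : -1 < (x : ℤ) - y := by
    by_contra hc
    push Not at hc
    nlinarith
  omega

theorem et_sub (p : ℕ) : et p ⊆ Icc 1 ((2 * p ^ 2 : ℕ) : ℤ) := by
  intro a ha
  rw [et, mem_image] at ha
  obtain ⟨x, hx, rfl⟩ := ha
  rw [mem_range] at hx
  have hp0 : 0 < p := by omega
  have hx0 : (0 : ℤ) ≤ ((x ^ 2 % p : ℕ) : ℤ) := Int.natCast_nonneg _
  have hx1 : ((x ^ 2 % p : ℕ) : ℤ) < p := by exact_mod_cast Nat.mod_lt _ hp0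
  have hx' : (x : ℤ) + 1 ≤ p := by exact_mod_cast hx
  have hxn : (0 : ℤ) ≤ x := Int.natCast_nonneg _
  have hpz : (0 : ℤ) < p := by exact_mod_cast hp0
  rw [mem_Icc]
  push_cast at hx0 hx1 ⊢
  constructor
  · have : 0 ≤ 2 * (p : ℤ) * x := by positivity
    linarith
  · nlinarith

/-- in `{1, ..., N}` -/
theorem exists_sidon (N : ℕ) (hN : 1 ≤ N) : ∃ A : Finset ℤ, A ⊆ Icc 1 (N : ℤ) ∧ SidonZ A ∧
    Real.sqrt N ≤ 6 * A.card := by
  rcases Nat.lt_or_ge N 36 with h | h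
  · refine ⟨{1}, ?_, ?_, ?_⟩
    · intro x hx
      rw [mem_singleton] at hx
      rw [hx, mem_Icc]
      constructor
      · exact le_rfl
      · exact_mod_cast hN
    · intro a ha b hb _ _ _ _ _ hab
      rw [mem_singleton] at ha hb
      exact absurd (ha.trans hb.symm) hab
    · rw [card_singleton, Real.sqrt_le_left (by norm_num)]
      have : (N : ℝ) < 36 := by exact_mod_cast h
      norm_num
      linarith
  · set n := ⌊Real.sqrt (N / 8)⌋₊ with hn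
    have hn2 : 2 ≤ n := by
      apply Nat.le_floor
      apply Real.le_sqrt_of_sq_le
      have : (36 : ℝ) ≤ N := by exact_mod_cast h
      norm_num
      linarith
    obtain ⟨p, hp, hnp, hp2⟩ := Nat.exists_prime_lt_and_le_two_mul n (by omega)
    have hnR : (n : ℝ) ≤ Real.sqrt (N / 8) := Nat.floor_le (Real.sqrt_nonneg _)
    have hnR' : Real.sqrt (N / 8) < n + 1 := Nat.lt_floor_add_one _
    have hsq : Real.sqrt (N / 8) ^ 2 = N / 8 := Real.sq_sqrt (by positivity)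
    refine ⟨et p, (et_sub p).trans (Icc_subset_Icc le_rfl ?_), et_sidon hp (by omega), ?_⟩
    · have h1 : (2 * p ^ 2 : ℕ) ≤ N := by
        have h2 : (p : ℝ) ≤ 2 * n := by exact_mod_cast hp2
        have h3 : (p : ℝ) ≤ 2 * Real.sqrt (N / 8) := by linarith
        have h4 : (p : ℝ) ^ 2 ≤ (2 * Real.sqrt (N / 8)) ^ 2 :=
          pow_le_pow_left₀ (Nat.cast_nonneg _) h3 2
        rw [mul_pow, hsq] at h4
        have h5 : 2 * (p : ℝ) ^ 2 ≤ N := by linarith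
        exact_mod_cast h5
      exact_mod_cast h1
    · rw [et_card]
      have h1 : (n : ℝ) + 1 ≤ p := by exact_mod_cast hnp
      have h2 : Real.sqrt N ≤ 3 * Real.sqrt (N / 8) := by
        rw [Real.sqrt_le_left (by positivity), mul_pow, hsq]
        have : (0 : ℝ) ≤ N := Nat.cast_nonneg _
        linarith
      have h3 : 0 ≤ Real.sqrt (N / 8) := Real.sqrt_nonneg _
      linarith

end Pool.Agent.Q102.VC
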