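import Mathlib

set_option autoImplicit false

/-!
# Progression-free sets of small VC dimension
-/

namespace Pool.Agent.Q102.VC

open Finset

/-- Behrend's set, shifted by one -/
def beh (n d k : ℕ) : Finset ℤ := (Behrend.sphere n d k).image fun v =>
  ((Behrend.map (2 * d - 1) v : ℕ) : ℤ) + 1

theorem mem_beh {n d k : ℕ} {x : ℤ} : x ∈ beh n d k ↔
    ∃ v : Fin n → ℕ, v ∈ Behrend.sphere n d k ∧ ((Behrend.map (2 * d - 1) v : ℕ) : ℤ) + 1 = x := by
  rw [beh, mem_image]

theorem map_inj2 {n d : ℕ} {u v u' v' : Fin n → ℕ} (hu : ∀ i, u i < d) (hv : ∀ i, v i < d)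
    (hu' : ∀ i, u' i < d) (hv' : ∀ i, v' i < d)
    (h : Behrend.map (2 * d - 1) u + Behrend.map (2 * d - 1) v =
      Behrend.map (2 * d - 1) u' + Behrend.map (2 * d - 1) v') : ∀ i, u i + v i = u' i + v' i := by
  rw [← map_add, ← map_add] at h
  have h1 : u + v ∈ {x : Fin n → ℕ | ∀ i, x i < 2 * d - 1} := by
    intro i
    have h1 := hu i
    have h2 := hv i
    show u i + v i < _
    omega
  have h2 : u' + v' ∈ {x : Fin n → ℕ | ∀ i, x i < 2 * d - 1} := by
    intro i
    have h1 := hu' i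
    have h2 := hv' i
    show u' i + v' i < _
    omega
  have h3 := Behrend.map_injOn h1 h2 h
  intro i
  exact congrFun h3 i

/-- Behrend's sets have small VC dimension. -/
theorem beh_vc {n d k : ℕ} (hn : 1 ≤ n) (Z : Finset ℤ)
    (hZ : ∀ B ⊆ Z, ∃ t : ℤ, ∀ x ∈ Z, x ∈ B ↔ x - t ∈ beh n d k) : Z.card ≤ 3 * n + 1 := by
  classical
  rcases Z.eq_empty_or_nonempty with hZe | hZne
  · rw [hZe, card_empty]; omega
  obtain ⟨t0, ht0⟩ := hZ Z (Subset.refl Z)
  have h0 : ∀ x ∈ Z, ∃ v : Fin n → ℕ, v ∈ Behrend.sphere n d k ∧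
      ((Behrend.map (2 * d - 1) v : ℕ) : ℤ) + 1 = x - t0 := fun x hx => mem_beh.1 ((ht0 x hx).1 hx)
  choose! y hy using h0
  have hybox : ∀ x ∈ Z, ∀ i, y x i < d := fun x hx =>
    Behrend.mem_box.1 (Behrend.sphere_subset_box (hy x hx).1)
  have hysum : ∀ x ∈ Z, ∑ i, y x i ^ 2 = k := fun x hx => by
    have h1 := (hy x hx).1
    rw [Behrend.sphere, mem_filter] at h1
    exact h1.2
  -- extremal points
  have hmin : ∀ i : Fin n, ∃ e ∈ Z, ∀ x ∈ Z, y e i ≤ y x i := fun i =>
    exists_min_image Z (fun x => y x i) hZne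
  have hmax : ∀ i : Fin n, ∃ e ∈ Z, ∀ x ∈ Z, y x i ≤ y e i := fun i =>
    exists_max_image Z (fun x => y x i) hZne
  choose emin hemin using hmin
  choose emax hemax using hmax
  set E : Finset ℤ := univ.image emin ∪ univ.image emax with hE
  have hEZ : E ⊆ Z := by
    intro x hx
    rw [hE, mem_union, mem_image, mem_image] at hx
    rcases hx with ⟨i, -, rfl⟩ | ⟨i, -, rfl⟩
    · exact (hemin i).1
    · exact (hemax i).1
  have hEc : E.card ≤ 2 * n := by
    have h1 : (univ.image emin).card ≤ n := card_image_le.trans (by simp)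
    have h2 : (univ.image emax).card ≤ n := card_image_le.trans (by simp)
    have h3 := card_union_le (univ.image emin) (univ.image emax)
    rw [hE]
    omega
  -- the vectors
  let u : (Z \ E : Finset ℤ) → (Fin (n + 1) → ℚ) := fun z => Fin.cons 1 fun i => (y z.1 i : ℚ)
  have hli : LinearIndependent ℚ u := by
    rw [Fintype.linearIndependent_iff]
    intro g hg z0
    obtain ⟨z0, hz0⟩ := z0
    have hz0Z : z0 ∈ Z := (mem_sdiff.1 hz0).1
    have hz0E : z0 ∉ E := (mem_sdiff.1 hz0).2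
    obtain ⟨t1, ht1⟩ := hZ (Z.erase z0) (erase_subset _ _)
    have hb : ∀ x ∈ Z, x ≠ z0 → ∃ v : Fin n → ℕ, v ∈ Behrend.sphere n d k ∧
        ((Behrend.map (2 * d - 1) v : ℕ) : ℤ) + 1 = x - t1 := fun x hx hxz =>
      mem_beh.1 ((ht1 x hx).1 (mem_erase.2 ⟨hxz, hx⟩))
    choose! b hb using hb
    have hbbox : ∀ x ∈ Z, x ≠ z0 → ∀ i, b x i < d := fun x hx hxz =>
      Behrend.mem_box.1 (Behrend.sphere_subset_box (hb x hx hxz).1)
    have hbsum : ∀ x ∈ Z, x ≠ z0 → ∑ i, b x i ^ 2 = k := fun x hx hxz => by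
      have h1 := (hb x hx hxz).1
      rw [Behrend.sphere, mem_filter] at h1
      exact h1.2
    have hne : ∀ e ∈ E, e ≠ z0 := fun e he h => hz0E (h ▸ he)
    set e0 := emin ⟨0, by omega⟩ with he0
    have he0E : e0 ∈ E := mem_union_left _ (mem_image_of_mem _ (mem_univ _))
    have he0Z := hEZ he0E
    have hshift : ∀ x ∈ Z, x ≠ z0 → ∀ i, y x i + b e0 i = y e0 i + b x i := by
      intro x hx hxz
      apply map_inj2 (hybox x hx) (hbbox e0 he0Z (hne e0 he0E)) (hybox e0 he0Z) (hbbox x hx hxz)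
      have h1 := (hy x hx).2
      have h2 := (hb e0 he0Z (hne e0 he0E)).2
      have h3 := (hy e0 he0Z).2
      have h4 := (hb x hx hxz).2
      have : ((Behrend.map (2 * d - 1) (y x) : ℕ) : ℤ) + (Behrend.map (2 * d - 1) (b e0) : ℕ) =
          (Behrend.map (2 * d - 1) (y e0) : ℕ) + (Behrend.map (2 * d - 1) (b x) : ℕ) := by linarith
      exact_mod_cast this
    -- the functional
    let w : Fin n → ℤ := fun i => (y e0 i : ℤ) - b e0 i
    have hw : ∀ x ∈ Z, x ≠ z0 → ∀ i, (b x i : ℤ) = y x i - w i := by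
      intro x hx hxz i
      have h1 := hshift x hx hxz i
      show _ = _ - ((y e0 i : ℤ) - b e0 i)
      omega
    let h : ℤ → ℤ := fun x => ∑ i, (2 * (y x i : ℤ) * w i - w i ^ 2)
    have hh : ∀ x ∈ Z, x ≠ z0 → h x = 0 := by
      intro x hx hxz
      have h1 : ∑ i, (b x i : ℤ) ^ 2 = k := by exact_mod_cast hbsum x hx hxz
      have h2 : ∑ i, (y x i : ℤ) ^ 2 = k := by exact_mod_cast hysum x hx
      have h3 : ∀ i, 2 * (y x i : ℤ) * w i - w i ^ 2 = (y x i : ℤ) ^ 2 - (b x i : ℤ) ^ 2 := by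
        intro i
        rw [hw x hx hxz i]
        ring
      show ∑ i, (2 * (y x i : ℤ) * w i - w i ^ 2) = 0
      rw [sum_congr rfl fun i _ => h3 i, sum_sub_distrib, h1, h2, sub_self]
    have hhz : h z0 ≠ 0 := by
      intro hz
      have hnot : z0 - t1 ∉ beh n d k := fun h1 => by
        have := (ht1 z0 hz0Z).2 h1
        exact (mem_erase.1 this).1 rfl
      apply hnot
      -- the vector `y z0 - w`
      have hlo : ∀ i, 0 ≤ (y z0 i : ℤ) - w i := by
        intro i
        have h1 := hw (emin i) (hemin i).1 (hne _ (mem_union_left _ (mem_image_of_mem _ (mem_univ _)))) i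
        have h2 := (hemin i).2 z0 hz0Z
        have : (0 : ℤ) ≤ (b (emin i) i : ℤ) := Int.natCast_nonneg _
        omega
      have hhi : ∀ i, (y z0 i : ℤ) - w i < d := by
        intro i
        have hEi : emax i ∈ E := mem_union_right _ (mem_image_of_mem _ (mem_univ _))
        have h1 := hw (emax i) (hemax i).1 (hne _ hEi) i
        have h2 := (hemax i).2 z0 hz0Z
        have h3 := hbbox (emax i) (hemax i).1 (hne _ hEi) i
        omega
      let v : Fin n → ℕ := fun i => ((y z0 i : ℤ) - w i).toNat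
      have hv : ∀ i, (v i : ℤ) = y z0 i - w i := fun i => Int.toNat_of_nonneg (hlo i)
      have hvbox : ∀ i, v i < d := by
        intro i
        have h1 := hv i
        have h2 := hhi i
        omega
      refine mem_beh.2 ⟨v, ?_, ?_⟩
      · rw [Behrend.sphere, mem_filter, Behrend.mem_box]
        refine ⟨hvbox, ?_⟩
        have h2 : ∑ i, (y z0 i : ℤ) ^ 2 = k := by exact_mod_cast hysum z0 hz0Z
        have h3 : ∑ i, (v i : ℤ) ^ 2 = ∑ i, (y z0 i : ℤ) ^ 2 - h z0 := by
          show _ = _ - ∑ i, (2 * (y z0 i : ℤ) * w i - w i ^ 2)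
          rw [← sum_sub_distrib]
          apply sum_congr rfl
          intro i _
          rw [hv i]
          ring
        rw [hz, h2, sub_zero] at h3
        exact_mod_cast h3
      · have h1 : v + y e0 = y z0 + b e0 := by
          funext i
          have h1 := hv i
          show v i + y e0 i = y z0 i + b e0 i
          have h2 : (w i : ℤ) = (y e0 i : ℤ) - b e0 i := rfl
          omega
        have h2 := congrArg (Behrend.map (2 * d - 1)) h1
        rw [map_add, map_add] at h2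
        have h2' : ((Behrend.map (2 * d - 1) v : ℕ) : ℤ) + (Behrend.map (2 * d - 1) (y e0) : ℕ) =
            (Behrend.map (2 * d - 1) (y z0) : ℕ) + (Behrend.map (2 * d - 1) (b e0) : ℕ) := by
          exact_mod_cast h2
        have h3 := (hy z0 hz0Z).2
        have h4 := (hb e0 he0Z (hne e0 he0E)).2
        have h5 := (hy e0 he0Z).2
        linarith
    -- apply the functional to the relation
    have hrel : ∀ j : Fin (n + 1), ∑ z, g z * u z j = 0 := by
      intro j
      have := congrFun hg j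
      simpa [Finset.sum_apply, Pi.smul_apply, smul_eq_mul] using this
    have hu0 : ∀ z, u z 0 = 1 := fun z => rfl
    have hus : ∀ z (i : Fin n), u z i.succ = (y z.1 i : ℚ) := fun z i => rfl
    have hcomb : ∑ z, g z * (h z.1 : ℚ) = 0 := by
      have e1 : ∀ z : (Z \ E : Finset ℤ), g z * (h z.1 : ℚ) =
          ∑ i : Fin n, (2 * (w i : ℚ) * (g z * u z i.succ) - (w i : ℚ) ^ 2 * (g z * u z 0)) := by
        intro z
        rw [hu0]
        show g z * ((∑ i, (2 * (y z.1 i : ℤ) * w i - w i ^ 2) : ℤ) : ℚ) = _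
        push_cast
        rw [mul_sum]
        apply sum_congr rfl
        intro i _
        rw [hus]
        ring
      rw [sum_congr rfl fun z _ => e1 z, sum_comm]
      apply sum_eq_zero
      intro i _
      rw [sum_sub_distrib, ← mul_sum, ← mul_sum, hrel, hrel, mul_zero, mul_zero, sub_self]
    rw [sum_eq_single_of_mem (⟨z0, hz0⟩ : (Z \ E : Finset ℤ)) (mem_univ _)] at hcomb
    · have : (h z0 : ℚ) ≠ 0 := by exact_mod_cast hhz
      rcases mul_eq_zero.1 hcomb with h1 | h1
      · exact h1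
      · exact absurd h1 this
    · intro z _ hzz
      have : h z.1 = 0 := by
        apply hh z.1 (mem_sdiff.1 z.2).1
        intro h1
        apply hzz
        exact Subtype.ext h1
      rw [this]
      simp
  have hc := hli.fintype_card_le_finrank
  rw [Module.finrank_fin_fun, Fintype.card_coe] at hc
  have h4 := card_sdiff_add_card_eq_card hEZ
  omega

theorem beh_card (n d k : ℕ) : (beh n d k).card = (Behrend.sphere n d k).card := by
  apply card_image_of_injOn
  intro v hv v' hv' h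
  have h1 : Behrend.map (2 * d - 1) v = Behrend.map (2 * d - 1) v' := by
    have : ((Behrend.map (2 * d - 1) v : ℕ) : ℤ) = (Behrend.map (2 * d - 1) v' : ℕ) := by
      have h' : ((Behrend.map (2 * d - 1) v : ℕ) : ℤ) + 1 = (Behrend.map (2 * d - 1) v' : ℕ) + 1 := h
      linarith
    exact_mod_cast this
  have hb : ∀ i, v i < d := Behrend.mem_box.1 (Behrend.sphere_subset_box (mem_coe.1 hv))
  have hb' : ∀ i, v' i < d := Behrend.mem_box.1 (Behrend.sphere_subset_box (mem_coe.1 hv'))
  funext i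
  have := map_inj2 hb hb' hb' hb' (by rw [h1]) i
  omega

theorem beh_sub {n d k : ℕ} : beh n d k ⊆ Icc 1 (((2 * d - 1) ^ n : ℕ) : ℤ) := by
  intro x hx
  obtain ⟨v, hv, rfl⟩ := mem_beh.1 hx
  rcases Nat.eq_zero_or_pos n with hn | hn
  · subst hn
    simp [Behrend.map]
  have hb : ∀ i, v i < d := Behrend.mem_box.1 (Behrend.sphere_subset_box hv)
  have hd : 1 ≤ d := by
    have := hb ⟨0, hn⟩
    omega
  obtain ⟨e, rfl⟩ : ∃ e, d = e + 1 := ⟨d - 1, by omega⟩
  have h1 := Behrend.map_le_of_mem_box (Behrend.sphere_subset_box hv)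
  have h2 := Behrend.sum_lt (n := n) (d := e)
  have e1 : 2 * (e + 1) - 1 = 2 * e + 1 := by omega
  rw [e1] at h1 ⊢
  rw [Nat.add_sub_cancel] at h1
  have h3 : Behrend.map (2 * e + 1) v < (2 * e + 1) ^ n := lt_of_le_of_lt h1 h2
  rw [mem_Icc]
  constructor
  · have : (0 : ℤ) ≤ (Behrend.map (2 * e + 1) v : ℕ) := Int.natCast_nonneg _
    linarith
  · have : ((Behrend.map (2 * e + 1) v : ℕ) : ℤ) + 1 ≤ ((2 * e + 1) ^ n : ℕ) := by exact_mod_cast h3
    exact this

theorem beh_free {n d k : ℕ} {a δ : ℤ} (hδ : 1 ≤ δ) (h0 : a ∈ beh n d k) (h1 : a + δ ∈ beh n d k)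
    (h2 : a + 2 * δ ∈ beh n d k) : False := by
  obtain ⟨u, hu, hu'⟩ := mem_beh.1 h0
  obtain ⟨v, hv, hv'⟩ := mem_beh.1 h1
  obtain ⟨w, hw, hw'⟩ := mem_beh.1 h2
  have hfree := Behrend.threeAPFree_image_sphere (n := n) (d := d) (k := k)
  have hmem : ∀ v ∈ Behrend.sphere n d k, Behrend.map (2 * d - 1) v ∈
      ((Behrend.sphere n d k).image (Behrend.map (2 * d - 1)) : Set ℕ) := by
    intro v hv
    rw [mem_coe]
    exact mem_image_of_mem _ hv
  have h3 := hfree (hmem u hu) (hmem v hv) (hmem w hw) (by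
    have : ((Behrend.map (2 * d - 1) u : ℕ) : ℤ) + (Behrend.map (2 * d - 1) w : ℕ) =
        (Behrend.map (2 * d - 1) v : ℕ) + (Behrend.map (2 * d - 1) v : ℕ) := by linarith
    exact_mod_cast this)
  have h4 : ((Behrend.map (2 * d - 1) u : ℕ) : ℤ) = (Behrend.map (2 * d - 1) v : ℕ) := by
    exact_mod_cast h3
  linarith

/-- Behrend's sets in `{1, ..., N}` -/
theorem exists_beh (N : ℕ) (hN : 4096 ≤ N) : ∃ n d k : ℕ, 1 ≤ n ∧ (2 * d - 1) ^ n ≤ N ∧
    (n : ℝ) ≤ Real.sqrt (Real.log N) + 1 ∧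
    (N : ℝ) * Real.exp (-(4 * Real.sqrt (Real.log N))) ≤ (beh n d k).card := by
  set n := Behrend.nValue N with hn'
  have hn : 0 < (n : ℝ) := Nat.cast_pos.2 (Behrend.nValue_pos <| hN.trans' <| by norm_num1)
  have hd : 0 < Behrend.dValue N := Behrend.dValue_pos (hN.trans' <| by norm_num1)
  have hN₀ : 0 < (N : ℝ) := Nat.cast_pos.2 (hN.trans' <| by norm_num1)
  have hn₂ : 2 < n := Behrend.three_le_nValue <| hN.trans' <| by norm_num1
  have hle : (2 * Behrend.dValue N - 1) ^ n ≤ N := Behrend.le_N (hN.trans' <| by norm_num1)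
  obtain ⟨k, hk⟩ := Behrend.exists_large_sphere n (Behrend.dValue N)
  refine ⟨n, Behrend.dValue N, k, by omega, hle, ?_, ?_⟩
  · rw [hn', Behrend.nValue]
    exact (Nat.ceil_lt_add_one (Real.sqrt_nonneg _)).le
  rw [beh_card]
  refine le_trans ?_ hk
  have hkk : (((Behrend.dValue N) ^ n :) / (n * (Behrend.dValue N) ^ 2 :) : ℝ) =
      (Behrend.dValue N : ℝ) ^ (n - 2) / n := by
    have h1 : (Behrend.dValue N : ℝ) ≠ 0 := by exact_mod_cast hd.ne'
    have h2 : (Behrend.dValue N : ℝ) ^ n =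
        (Behrend.dValue N : ℝ) ^ (n - 2) * (Behrend.dValue N : ℝ) ^ 2 := by
      rw [← pow_add]; congr 1; omega
    push_cast
    rw [h2]
    field_simp
  rw [hkk]
  have e4 : -(4 * Real.sqrt (Real.log N)) = -4 * Real.sqrt (Real.log N) := by ring
  rw [e4]
  have key : (N : ℝ) * Real.exp (-4 * Real.sqrt (Real.log N)) ≤
      (N ^ (Behrend.nValue N : ℝ)⁻¹ / Real.exp 1 : ℝ) ^ (n - 2) / n := by
    open Real Nat in
    rw [← rpow_natCast, div_rpow (rpow_nonneg hN₀.le _) (exp_pos _).le, ← rpow_mul hN₀.le,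
      inv_mul_eq_div, cast_sub hn₂.le, cast_two, same_sub_div hn.ne', exp_one_rpow,
      div_div, rpow_sub hN₀, rpow_one, div_div, div_eq_mul_inv]
    gcongr _ * ?_
    rw [mul_inv, mul_inv, ← exp_neg, ← rpow_neg (cast_nonneg _), neg_sub, ← div_eq_mul_inv]
    have : exp (-4 * √(log N)) = exp (-2 * √(log N)) * exp (-2 * √(log N)) := by
      rw [← exp_add, ← add_mul]
      norm_num
    rw [this]
    gcongr
    · rw [← le_log_iff_exp_le (rpow_pos_of_pos hN₀ _), log_rpow hN₀, ← le_div_iff₀, mul_div_assoc,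
        div_sqrt, neg_mul, neg_le_neg_iff, div_mul_eq_mul_div, div_le_iff₀ hn]
      · gcongr
        apply le_ceil
      refine Real.sqrt_pos.2 (log_pos ?_)
      rw [one_lt_cast]
      exact hN.trans_lt' (by norm_num1)
    · refine (Behrend.exp_neg_two_mul_le <| Real.sqrt_pos.2 <| log_pos ?_).le
      rw [one_lt_cast]
      exact hN.trans_lt' (by norm_num1)
  refine key.trans ?_
  gcongr
  exact (Behrend.bound hN).le

end Pool.Agent.Q102.VC
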